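import Pool.Agent.Helper88.MT.RootPart

/-!
Long roots: the strict maximum of a generic functional.
-/

open Module

namespace MTP.MF

section LR

variable {ι K M N : Type*} [Field K] [CharZero K] [AddCommGroup M] [Module K M]
  [AddCommGroup N] [Module K N] (P : RootPairing ι K M N)

/-- A root which is the strict maximum of an additive functional. -/
lemma exists_top [Finite ι] [Nonempty ι] :
    ∃ (g : M →+ ℚ) (θ : ι), (∀ i, i ≠ θ → g (P.root i) < g (P.root θ)) ∧ 0 < g (P.root θ) := by
  let _i : Module ℚ M := Module.compHom M (algebraMap ℚ K)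
  let v : ι ⊕ {p : ι × ι // p.1 ≠ p.2} → M :=
    Sum.elim (fun i => P.root i) (fun p => P.root p.1.1 - P.root p.1.2)
  have hv : ∀ i, v i ≠ 0 := by
    rintro (i | ⟨⟨i, j⟩, hij⟩)
    · exact P.ne_zero i
    · intro h
      exact hij (P.root.injective (sub_eq_zero.mp h))
  obtain ⟨f, hf⟩ := Module.exists_dual_forall_apply_ne_zero (K := ℚ) v hv
  obtain ⟨θ, hθ⟩ := Finite.exists_max (fun i => f (P.root i))
  have hlt : ∀ i, i ≠ θ → f (P.root i) < f (P.root θ) := by
    intro i hi
    refine lt_of_le_of_ne (hθ i) ?_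
    intro h
    have h1 := hf (Sum.inr ⟨(i, θ), hi⟩)
    apply h1
    simp only [v, Sum.elim_inr, map_sub, h, sub_self]
  refine ⟨(f : M →+ ℚ), θ, hlt, ?_⟩
  have h1 : f (P.root (P.reflectionPerm θ θ)) ≤ f (P.root θ) := hθ _
  rw [P.root_reflectionPerm, P.reflection_apply_self, map_neg] at h1
  have h2 : f (P.root θ) ≠ 0 := hf (Sum.inl θ)
  change 0 < f (P.root θ)
  rcases lt_trichotomy (f (P.root θ)) 0 with h | h | h
  · linarith
  · exact absurd h h2
  · exact h

variable {P} [P.IsCrystallographic] {g : M →+ ℚ} {θ : ι}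

lemma top_pairing (hg : ∀ i, i ≠ θ → g (P.root i) < g (P.root θ)) (h0 : 0 < g (P.root θ))
    {i : ι} (h1 : i ≠ θ) (h2 : P.root i ≠ - P.root θ) :
    P.pairingIn ℤ i θ = -1 ∨ P.pairingIn ℤ i θ = 0 ∨ P.pairingIn ℤ i θ = 1 := by
  have hle : ∀ j, g (P.root j) ≤ g (P.root θ) := by
    intro j
    by_cases hj : j = θ
    · rw [hj]
    · exact (hg j hj).le
  have heq : ∀ j, g (P.root j) = g (P.root θ) → j = θ := by
    intro j hj
    by_contra hne
    exact (hg j hne).ne hj
  set m := P.pairingIn ℤ i θ with hm
  have hrefl : g (P.root (P.reflectionPerm θ i)) = g (P.root i) - m * g (P.root θ) := by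
    rw [P.root_reflectionPerm, P.reflection_apply_root' ℤ, map_sub, map_zsmul, zsmul_eq_mul]
  have hrefl2 : g (P.root (P.reflectionPerm i i)) = - g (P.root i) := by
    rw [P.root_reflectionPerm, P.reflection_apply_self, map_neg]
  have hb1 := hle (P.reflectionPerm θ i)
  rw [hrefl] at hb1
  have hb3 := hle (P.reflectionPerm θ (P.reflectionPerm i i))
  have hrefl3 : g (P.root (P.reflectionPerm θ (P.reflectionPerm i i))) =
      - g (P.root i) + m * g (P.root θ) := by
    rw [P.root_reflectionPerm, P.root_reflectionPerm, P.reflection_apply_self, map_neg,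
      P.reflection_apply_root' ℤ, map_neg, map_sub, map_zsmul, zsmul_eq_mul]
    ring
  rw [hrefl3] at hb3
  have hi1 := hle i
  have hi2 := hle (P.reflectionPerm i i)
  rw [hrefl2] at hi2
  -- if `m` is at most `-2`
  have hA : ¬ m ≤ -2 := by
    intro hA
    have hA' : (m : ℚ) ≤ -2 := by exact_mod_cast hA
    have h3 : - g (P.root i) = g (P.root θ) := by
      apply le_antisymm hi2
      nlinarith
    have h4 := heq (P.reflectionPerm i i) (by rw [hrefl2, h3])
    apply h2
    have h5 : P.root (P.reflectionPerm i i) = P.root θ := by rw [h4]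
    rw [P.root_reflectionPerm, P.reflection_apply_self] at h5
    rw [← h5, neg_neg]
  have hB : ¬ 2 ≤ m := by
    intro hB
    have hB' : (2 : ℚ) ≤ m := by exact_mod_cast hB
    have h3 : g (P.root i) = g (P.root θ) := by
      apply le_antisymm hi1
      nlinarith
    exact h1 (heq i h3)
  omega

/-- All norms are multiples of the norm of a long coroot. -/
lemma exists_mult [P.IsIrreducible] (T : LinearMap.BilinForm K N) (hT0 : T ≠ 0)
    (hsymm : ∀ x y, T x y = T y x) (hTi : ∀ i x y, T (P.coreflection i x) (P.coreflection i y) = T x y)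
    (hpair : ∀ i, i ≠ θ → P.root i ≠ - P.root θ →
      P.pairingIn ℤ i θ = -1 ∨ P.pairingIn ℤ i θ = 0 ∨ P.pairingIn ℤ i θ = 1) (i : ι) :
    ∃ c : ℤ, T (P.coroot i) (P.coroot i) = (c : K) * T (P.coroot θ) (P.coroot θ) := by
  have hTc : ∀ i x, 2 * T x (P.coroot i) = P.root' i x * T (P.coroot i) (P.coroot i) := by
    intro i x
    have h1 := hTi i x (P.coroot i)
    rw [P.coreflection_apply_self, P.coreflection_apply] at h1
    simp only [map_sub, map_neg, map_smul, LinearMap.sub_apply, LinearMap.smul_apply,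
      smul_eq_mul] at h1
    linear_combination -h1
  have hker : LinearMap.ker T = ⊥ := by
    by_contra hne
    apply hT0
    have h1 := RootPairing.IsIrreducible.eq_top_of_invtSubmodule_coreflection (P := P)
      (LinearMap.ker T) (by
        intro i
        rw [Module.End.mem_invtSubmodule]
        intro x hx
        rw [Submodule.mem_comap, LinearMap.mem_ker] at *
        ext z
        have h2 := hTi i x (P.coreflection i z)
        rw [P.coreflection_same, hx] at h2
        simpa using h2) hne
    exact LinearMap.ker_eq_top.mp h1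
  have hne : ∀ i, T (P.coroot i) (P.coroot i) ≠ 0 := by
    intro i h
    have h1 : P.coroot i ∈ LinearMap.ker T := by
      rw [LinearMap.mem_ker]
      ext x
      have h2 := hTc i x
      rw [h, mul_zero] at h2
      have h3 := (mul_eq_zero.mp h2).resolve_left two_ne_zero
      have h4 : T (P.coroot i) x = T x (P.coroot i) := hsymm _ _
      rw [h4, h3, LinearMap.zero_apply]
    rw [hker, Submodule.mem_bot] at h1
    exact P.flip.ne_zero i h1
  let B : P.flip.InvariantForm :=
    { form := T
      symm := ⟨hsymm⟩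
      ne_zero := hne
      isOrthogonal_reflection := fun i x y => hTi i x y }
  obtain ⟨k, hk1, hk2⟩ := P.flip.exists_form_eq_form_and_form_ne_zero B θ i
  change T (P.coroot k) (P.coroot k) = T (P.coroot i) (P.coroot i) at hk1
  change T (P.coroot θ) (P.coroot k) ≠ 0 at hk2
  rw [← hk1]
  by_cases hkθ : k = θ
  · exact ⟨1, by rw [hkθ]; simp⟩
  by_cases hkθ' : P.root k = - P.root θ
  · refine ⟨1, ?_⟩
    have : k = P.reflectionPerm θ θ := by
      apply P.root.injective
      rw [P.root_reflectionPerm, P.reflection_apply_self, hkθ']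
    rw [this, P.coroot_reflectionPerm, hTi]
    simp
  have h1 := hTc k (P.coroot θ)
  have h2 := hTc θ (P.coroot k)
  have h3 : T (P.coroot k) (P.coroot θ) = T (P.coroot θ) (P.coroot k) :=
    hsymm _ _
  rw [P.root'_coroot_eq_pairing] at h1 h2
  rw [h3, h1] at h2
  rw [← P.algebraMap_pairingIn ℤ, ← P.algebraMap_pairingIn ℤ] at h2
  rw [← P.algebraMap_pairingIn ℤ] at h1
  rcases hpair k hkθ hkθ' with h | h | h
  · refine ⟨- P.pairingIn ℤ θ k, ?_⟩
    rw [h] at h2
    simp only [algebraMap_int_eq, eq_intCast, Int.cast_neg, Int.cast_one] at h2 ⊢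
    linear_combination -h2
  · exfalso
    rw [h, map_zero, zero_mul] at h1
    exact hk2 ((mul_eq_zero.mp h1).resolve_left two_ne_zero)
  · refine ⟨P.pairingIn ℤ θ k, ?_⟩
    rw [h] at h2
    simp only [algebraMap_int_eq, eq_intCast, Int.cast_one] at h2 ⊢
    linear_combination h2

end LR

end MTP.MF
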