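import Pool.Agent.Helper88.MT.Long
import Pool.Agent.Helper88.MT.LongRoot

/-!
The long root vector in a module generated by involutions; the trace form on a Cartan subalgebra.
-/

open Module LieModule LieAlgebra LieAlgebra.IsKilling

namespace MTP.MF

section E

variable {K : Type*} [Field K] [CharZero K] [IsAlgClosed K]
  {L : Type*} [LieRing L] [LieAlgebra K L] [FiniteDimensional K L] [IsKilling K L]
  {H : LieSubalgebra K L} [H.IsCartanSubalgebra]
  {V : Type*} [AddCommGroup V] [Module K V] [FiniteDimensional K V]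
  [LieRingModule L V] [LieModule K L V]

lemma exists_triple (α : H.root) : ∃ e f : L, IsSl2Triple ((coroot α.1 : H) : L) e f ∧
    e ∈ rootSpace H α.1 ∧ f ∈ rootSpace H (-α.1) := by
  obtain ⟨h, e, f, ht, he, hf⟩ := exists_isSl2Triple_of_weight_isNonZero
    (H.isNonZero_coe_root α)
  have := ht.h_eq_coroot (H.isNonZero_coe_root α) he hf
  rw [this] at ht
  exact ⟨e, f, ht, he, hf⟩

omit [FiniteDimensional K V] in
lemma tf_coroot {α : H.root} {e f : L} (ht : IsSl2Triple ((coroot α.1 : H) : L) e f)
    (he : e ∈ rootSpace H α.1) (x : H) :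
    traceForm K H V x (coroot α.1) = α.1 x * traceForm K L V e f := by
  have h1 : traceForm K H V x (coroot α.1) = traceForm K L V (x : L) ((coroot α.1 : H) : L) := rfl
  rw [h1, ← ht.lie_e_f, ← traceForm_apply_lie_apply, lie_root he, map_smul,
    LinearMap.smul_apply, smul_eq_mul]

omit [FiniteDimensional K V] in
lemma tf_coroot_self {α : H.root} {e f : L} (ht : IsSl2Triple ((coroot α.1 : H) : L) e f)
    (he : e ∈ rootSpace H α.1) :
    traceForm K H V (coroot α.1) (coroot α.1) = 2 * traceForm K L V e f := by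
  rw [tf_coroot ht he, root_apply_coroot (H.isNonZero_coe_root α)]

omit [FiniteDimensional K V] in
/-- The trace form is invariant under the Weyl group. -/
lemma tf_invariant (α : H.root) (x y : H) :
    traceForm K H V ((rootSystem H).coreflection α x) ((rootSystem H).coreflection α y) =
      traceForm K H V x y := by
  obtain ⟨e, f, ht, he, hf⟩ := exists_triple α
  rw [RootPairing.coreflection_apply, RootPairing.coreflection_apply]
  change traceForm K H V (x - α.1 x • coroot α.1) (y - α.1 y • coroot α.1) = _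
  have h1 := tf_coroot (V := V) ht he x
  have h2 := tf_coroot (V := V) ht he y
  have h3 := tf_coroot_self (V := V) ht he
  have h4 : traceForm K H V (coroot α.1) y = traceForm K H V y (coroot α.1) :=
    traceForm_comm K H V _ _
  simp only [map_sub, map_smul, LinearMap.sub_apply, LinearMap.smul_apply, smul_eq_mul, h1, h3,
    h4, h2]
  ring

omit [IsAlgClosed K] in
lemma mem_line [IsTriangularizable K H L] {θ : H.root} {e x : L} (he : e ∈ rootSpace H θ.1)
    (he0 : e ≠ 0) (hx : x ∈ rootSpace H θ.1) : ∃ c : K, x = c • e := by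
  have h6 : finrank K (rootSpace H θ.1) = 1 :=
    finrank_rootSpace_eq_one θ.1 (H.isNonZero_coe_root θ)
  have h7 : finrank K (rootSpace H θ.1).toSubmodule = 1 := h6
  have h8 : (⟨e, he⟩ : (rootSpace H θ.1).toSubmodule) ≠ 0 :=
    fun h => he0 (congrArg Subtype.val h)
  obtain ⟨c, hc⟩ := (finrank_eq_one_iff_of_nonzero' _ h8).mp h7 ⟨x, hx⟩
  exact ⟨c, (congrArg Subtype.val hc).symm⟩

/-- The long root vector. -/
theorem exists_long [Nonempty H.root]
    (hspan : ∀ x : L, x ∈ Submodule.span K {s : L | ∀ u : V, ⁅s, ⁅s, u⁆⁆ = u}) :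
    ∃ (g : Dual K H →+ ℚ) (θ : H.root),
      (∀ i, i ≠ θ → g ((rootSystem H).root i) < g ((rootSystem H).root θ)) ∧
      0 < g ((rootSystem H).root θ) ∧
      ∃ e f : L, IsSl2Triple ((coroot θ.1 : H) : L) e f ∧ e ∈ rootSpace H θ.1 ∧
        f ∈ rootSpace H (-θ.1) ∧ toEnd K L V e * toEnd K L V e = 0 := by
  classical
  obtain ⟨g, θ, hg, h0⟩ := exists_top (rootSystem H)
  refine ⟨g, θ, hg, h0, ?_⟩
  obtain ⟨e, f, ht, he, hf⟩ := exists_triple θ
  refine ⟨e, f, ht, he, hf, ?_⟩
  have hroot : ∀ α : H.root, (rootSystem H).root α = α.1.toLinear := fun α => rfl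
  have hle : ∀ j : H.root, g ((rootSystem H).root j) ≤ g ((rootSystem H).root θ) := by
    intro j
    by_cases hj : j = θ
    · rw [hj]
    · exact (hg j hj).le
  have hge : ∀ j : H.root, - g ((rootSystem H).root θ) ≤ g ((rootSystem H).root j) := by
    intro j
    have h1 := hle ((rootSystem H).reflectionPerm j j)
    rw [RootPairing.root_reflectionPerm, RootPairing.reflection_apply_self, map_neg] at h1
    linarith
  -- the element is extremal
  have hext : ∀ x : L, ∃ c : K, ⁅e, ⁅e, x⁆⁆ = c • e := by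
    intro x
    let U : Submodule K L :=
      { carrier := {x | ∃ c : K, ⁅e, ⁅e, x⁆⁆ = c • e}
        add_mem' := by
          rintro a b ⟨c, hc⟩ ⟨d, hd⟩
          exact ⟨c + d, by rw [lie_add, lie_add, hc, hd, add_smul]⟩
        zero_mem' := ⟨0, by simp⟩
        smul_mem' := by
          rintro k a ⟨c, hc⟩
          exact ⟨k * c, by rw [lie_smul, lie_smul, hc, smul_smul]⟩ }
    have hmemU : ∀ z : L, z ∈ U ↔ ∃ c : K, ⁅e, ⁅e, z⁆⁆ = c • e := fun z => Iff.rfl
    clear_value U
    rw [← hmemU]
    refine root_induction (U := U) (H := H) ?_ x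
    intro α z hz
    rw [hmemU]
    have h1 : ⁅e, ⁅e, z⁆⁆ ∈ rootSpace H ((θ.1 : H → K) + ((θ.1 : H → K) + (α : H → K))) :=
      lie_mem_genWeightSpace_of_mem_genWeightSpace he
        (lie_mem_genWeightSpace_of_mem_genWeightSpace he hz)
    rcases eq_or_ne (rootSpace H ((θ.1 : H → K) + ((θ.1 : H → K) + (α : H → K)))) ⊥
      with hbot | hbot
    · rw [hbot, LieSubmodule.mem_bot] at h1
      exact ⟨0, by rw [h1, zero_smul]⟩
    · let χ : Weight K H L := ⟨(θ.1 : H → K) + ((θ.1 : H → K) + (α : H → K)), hbot⟩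
      have hχ : χ.toLinear = θ.1.toLinear + (θ.1.toLinear + α.toLinear) := by
        ext h; rfl
      have hgα : - g (θ.1.toLinear) ≤ g α.toLinear := by
        by_cases hα : α.IsZero
        · have : α.toLinear = 0 := by
            ext h
            exact congrFun hα h
          rw [this, map_zero]
          have := h0
          rw [hroot] at this
          linarith
        · have hα' : α ∈ H.root := by simpa [LieSubalgebra.root] using hα
          exact hge ⟨α, hα'⟩
      have hgχ : g χ.toLinear = 2 * g θ.1.toLinear + g α.toLinear := by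
        rw [hχ, map_add, map_add]; ring
      have hpos : 0 < g θ.1.toLinear := h0
      have hχ0 : ¬ χ.IsZero := by
        intro h
        have : χ.toLinear = 0 := by
          ext h'
          exact congrFun h h'
        rw [this, map_zero] at hgχ
        linarith
      have hχ' : χ ∈ H.root := by simpa [LieSubalgebra.root] using hχ0
      have h2 : g χ.toLinear ≤ g θ.1.toLinear := hle ⟨χ, hχ'⟩
      have hlt : ∀ β : H.root, β ≠ θ → g β.1.toLinear < g θ.1.toLinear := fun β hβ => hg β hβ
      have h3 : (⟨χ, hχ'⟩ : H.root) = θ := by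
        rcases eq_or_ne (⟨χ, hχ'⟩ : H.root) θ with h3 | hne
        · exact h3
        · have h4 := hlt ⟨χ, hχ'⟩ hne
          have h5 : g χ.toLinear < g θ.1.toLinear := h4
          linarith
      have h4 : (χ : H → K) = (θ.1 : H → K) := by rw [← h3]
      have h5 : ⁅e, ⁅e, z⁆⁆ ∈ rootSpace H θ.1 := by
        rw [← h4]; exact h1
      exact mem_line he ht.e_ne_zero h5
  -- some involution pairs with it
  obtain ⟨s, hs, hs0⟩ : ∃ s : L, (∀ u : V, ⁅s, ⁅s, u⁆⁆ = u) ∧ ⁅e, ⁅e, s⁆⁆ ≠ 0 := by
    by_contra! hcon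
    have hz : ∀ x : L, ⁅e, ⁅e, x⁆⁆ = 0 := by
      intro x
      have hx := hspan x
      induction hx using Submodule.span_induction with
      | mem u hu => exact hcon u hu
      | zero => simp
      | add a b _ _ ha hb => rw [lie_add, lie_add, ha, hb, add_zero]
      | smul c a _ ha => rw [lie_smul, lie_smul, ha, smul_zero]
    have h1 := hz f
    rw [ht.lie_e_f, ← lie_skew, ht.lie_h_e_nsmul] at h1
    have h2 : (2 : K) • e = 0 := by
      rw [ofNat_smul_eq_nsmul]
      exact neg_eq_zero.mp h1
    exact ht.e_ne_zero ((smul_eq_zero.mp h2).resolve_left two_ne_zero)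
  obtain ⟨c, hc⟩ := hext s
  have hc0 : c ≠ 0 := by
    rintro rfl
    rw [zero_smul] at hc
    exact hs0 hc
  have hnil : _root_.IsNilpotent (toEnd K L V e) := by
    refine isNilpotent_toEnd_of_mem_rootSpace (M := V) H ?_ he
    intro h
    exact H.isNonZero_coe_root θ h
  have hss : toEnd K L V s * toEnd K L V s = 1 := by
    ext u
    exact hs u
  refine sq_zero_of_extremal hnil hss hc0 ?_
  ext u
  simp only [LinearMap.sub_apply, Module.End.mul_apply, toEnd_apply_apply, LinearMap.smul_apply]
  have h1 : ⁅⁅e, ⁅e, s⁆⁆, u⁆ = c • ⁅e, u⁆ := by rw [hc, smul_lie]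
  rw [← h1]
  simp only [lie_lie, lie_sub]

end E

end MTP.MF
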