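import Pool.Agent.Helper88.MT.Dual

/-!
The top weight, and the parity of the eigenvalues of the sum of the positive coroots.
-/

open Module LieModule LieAlgebra LieAlgebra.IsKilling

namespace MTP.MF

section T

variable {K : Type*} [Field K] [CharZero K] [IsAlgClosed K]
  {L : Type*} [LieRing L] [LieAlgebra K L] [FiniteDimensional K L] [IsKilling K L]
  {H : LieSubalgebra K L} [H.IsCartanSubalgebra]
  {V : Type*} [AddCommGroup V] [Module K V] [FiniteDimensional K V]
  [LieRingModule L V] [LieModule K L V]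

lemma root'_apply (α : H.root) (x : H) : (rootSystem H).root' α x = α.1 x := rfl

lemma root_rho (b : (rootSystem H).Base) (α : H.root) :
    α.1 (rho2 b) = 2 * (b.height α : K) := by
  rw [← root'_apply, root_rho2_height]

/-- The difference of two distinct simple roots is not a root and not zero. -/
lemma rootSpace_sub_eq_bot (b : (rootSystem H).Base) {i j : H.root} (hi : i ∈ b.support)
    (hj : j ∈ b.support) (hij : i ≠ j) : rootSpace H ((i.1 : H → K) - (j.1 : H → K)) = ⊥ := by
  by_contra hne
  let χ : Weight K H L := ⟨(i.1 : H → K) - (j.1 : H → K), hne⟩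
  have hχ : ∀ h, χ h = i.1 h - j.1 h := fun h => rfl
  by_cases h0 : χ.IsZero
  · apply hij
    have h1 : ∀ h, i.1 h = j.1 h := by
      intro h
      have h2 : χ h = 0 := congrFun h0 h
      rw [hχ] at h2
      exact sub_eq_zero.mp h2
    apply Subtype.ext
    apply Weight.ext
    exact h1
  · have hmem : χ ∈ H.root := by simpa [LieSubalgebra.root] using h0
    have h1 := b.sub_notMem_range_root hi hj
    apply h1
    refine ⟨⟨χ, hmem⟩, ?_⟩
    ext h
    exact hχ h

/-- A principal triple. -/
theorem exists_principal [Nonempty H.root] (b : (rootSystem H).Base) :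
    ∃ e f : L, IsSl2Triple ((rho2 b : H) : L) e f ∧
      ∃ es fs : H.root → L, (∀ j, es j ∈ rootSpace H j.1) ∧
      (∀ j, fs j ∈ rootSpace H (-j.1)) ∧ e = ∑ j ∈ b.support, es j ∧
      f = ∑ j ∈ b.support, fs j := by
  classical
  have hex : ∀ j : H.root, ∃ e f : L, IsSl2Triple ((coroot j.1 : H) : L) e f ∧
      e ∈ rootSpace H j.1 ∧ f ∈ rootSpace H (-j.1) := by
    intro j
    obtain ⟨h, e, f, ht, he, hf⟩ := exists_isSl2Triple_of_weight_isNonZero
      (H.isNonZero_coe_root j)
    have := ht.h_eq_coroot (H.isNonZero_coe_root j) he hf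
    rw [this] at ht
    exact ⟨e, f, ht, he, hf⟩
  choose es fs ht hes hfs using hex
  -- expansion of the sum of the positive coroots in simple coroots
  obtain ⟨c, hc⟩ : ∃ c : H.root → K, rho2 b = ∑ j ∈ b.support, c j • coroot j.1 := by
    have h1 : rho2 b ∈ Submodule.span K ((rootSystem H).coroot '' b.support) := by
      rw [b.span_coroot_support, RootPairing.corootSpan]
      exact Submodule.sum_mem _ fun i _ => Submodule.subset_span ⟨i, rfl⟩
    obtain ⟨c, hc⟩ := (Submodule.mem_span_image_finset_iff_exists_fun K).mp h1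
    refine ⟨fun j => if hj : j ∈ b.support then c ⟨j, hj⟩ else 0, ?_⟩
    rw [← hc, ← Finset.sum_coe_sort b.support]
    refine Finset.sum_congr rfl fun j _ => ?_
    have e : (fun j => if hj : j ∈ b.support then c ⟨j, hj⟩ else 0) (j : H.root) = c j :=
      dif_pos j.2
    rw [e]
    rfl
  refine ⟨∑ j ∈ b.support, es j, ∑ j ∈ b.support, c j • fs j, ?_, es, fun j => c j • fs j,
    hes, fun j => Submodule.smul_mem _ _ (hfs j), rfl, rfl⟩
  have hval : ∀ j ∈ b.support, j.1 (rho2 b) = 2 := by
    intro j hj
    rw [← root'_apply, root_rho2 b hj]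
  obtain ⟨j0, hj0⟩ := b.support_nonempty
  refine ⟨?_, ?_, ?_, ?_⟩
  · intro h0
    have h1 : (rho2 b : H) = 0 := Subtype.ext h0
    have h2 := hval j0 hj0
    rw [h1, ← Weight.toLinear_apply, map_zero] at h2
    exact two_ne_zero h2.symm
  · rw [sum_lie]
    simp only [lie_sum]
    have h1 : ∀ i ∈ b.support, ∑ j ∈ b.support, ⁅es i, c j • fs j⁆ =
        c i • ((coroot i.1 : H) : L) := by
      intro i hi
      rw [Finset.sum_eq_single_of_mem i hi]
      · rw [lie_smul, (ht i).lie_e_f]
      · intro j hj hji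
        rw [lie_smul]
        have h2 : ⁅es i, fs j⁆ ∈ rootSpace H ((i.1 : H → K) + (-(j.1 : H → K))) :=
          lie_mem_genWeightSpace_of_mem_genWeightSpace (hes i) (hfs j)
        rw [← sub_eq_add_neg, rootSpace_sub_eq_bot b hi hj hji.symm, LieSubmodule.mem_bot] at h2
        rw [h2, smul_zero]
    rw [Finset.sum_congr rfl h1, hc]
    rw [AddSubmonoidClass.coe_finsetSum]
    rfl
  · rw [lie_sum, Finset.smul_sum]
    refine Finset.sum_congr rfl fun j hj => ?_
    rw [lie_root (hes j), hval j hj, ofNat_smul_eq_nsmul]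
  · rw [lie_sum, Finset.smul_sum, ← Finset.sum_neg_distrib]
    refine Finset.sum_congr rfl fun j hj => ?_
    have h2 : ⁅((rho2 b : H) : L), fs j⁆ = (-(j.1 : Weight K H L)) (rho2 b) • fs j :=
      lie_eq_smul_of_mem_rootSpace (hfs j) _
    rw [lie_smul, h2, Weight.coe_neg, Pi.neg_apply, hval j hj, neg_smul, smul_neg,
      smul_comm (c j) (2 : K), ofNat_smul_eq_nsmul]

section rep

variable {I : Type*} [Fintype I] (B : WB (V := V) H I) {ω : LinearMap.BilinForm K V}

/-- The eigenvalues of the sum of the positive coroots are integers of the same parity. -/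
lemma exists_int (hirr : ∀ W : Submodule K V, (∀ x : L, ∀ u ∈ W, ⁅x, u⁆ ∈ W) → W = ⊥ ∨ W = ⊤)
    (hnd : ω.Nondegenerate) (hsk : ∀ (x : L) (u v : V), ω ⁅x, u⁆ v = - ω u ⁅x, v⁆)
    (b : (rootSystem H).Base) :
    ∃ c : I → ℤ, (∀ i, B.w i (rho2 b) = (c i : K)) ∧ ∀ i j, Even (c i - c j) := by
  classical
  rcases isEmpty_or_nonempty I with hI | ⟨⟨i0⟩⟩
  · exact ⟨fun i => isEmptyElim i, fun i => isEmptyElim i, fun i => isEmptyElim i⟩
  have h1 : ∀ i, ∃ n : ℤ, B.w i (rho2 b) = B.w i0 (rho2 b) + 2 * (n : K) := by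
    refine B.conn hirr {i | ∃ n : ℤ, B.w i (rho2 b) = B.w i0 (rho2 b) + 2 * (n : K)}
      ⟨i0, 0, by simp⟩ ?_
    rintro α i j ⟨n, hn⟩ hj
    refine ⟨n + b.height α, ?_⟩
    rw [hj, hn, root_rho]
    push_cast
    ring
  choose n hn using h1
  -- the opposite of an eigenvalue is an eigenvalue
  obtain ⟨j, hj⟩ : ∃ j, B.w j (rho2 b) = - B.w i0 (rho2 b) := by
    have h2 : B.v.repr ((B.dual hnd hsk).v i0) ≠ 0 := by
      intro h
      exact (B.dual hnd hsk).v.ne_zero i0 (B.v.repr.map_eq_zero_iff.mp h)
    obtain ⟨j, hj⟩ := Finsupp.ne_iff.mp h2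
    exact ⟨j, B.coord ((B.dual hnd hsk).lie_v i0 (rho2 b)) hj⟩
  have h3 : B.w i0 (rho2 b) = ((- n j : ℤ) : K) := by
    have h4 := hn j
    rw [hj] at h4
    push_cast
    linear_combination (-1 / 2 : K) * h4
  refine ⟨fun i => - n j + 2 * n i, ?_, ?_⟩
  · intro i
    rw [hn i, h3]
    push_cast
    ring
  · intro i i'
    have : (- n j + 2 * n i) - (- n j + 2 * n i') = 2 * (n i - n i') := by ring
    simp only [this]
    exact even_two_mul _

/-- The top eigenspace of the sum of the positive coroots is a line. -/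
lemma top_unique (hirr : ∀ W : Submodule K V, (∀ x : L, ∀ u ∈ W, ⁅x, u⁆ ∈ W) → W = ⊥ ∨ W = ⊤)
    (b : (rootSystem H).Base) {c : I → ℤ} (hc : ∀ i, B.w i (rho2 b) = (c i : K)) {t : I}
    (ht : ∀ i, c i ≤ c t) : ∀ i, c i = c t → i = t := by
  classical
  let Neg : L → Prop := fun x => ∃ α : H.root, ¬ b.IsPos α ∧ x ∈ rootSpace H α.1
  let M : Submodule K V := sInf {U | B.v t ∈ U ∧ ∀ x, Neg x → ∀ u ∈ U, ⁅x, u⁆ ∈ U}
  have hM1 : B.v t ∈ M := by
    rw [Submodule.mem_sInf]
    rintro U ⟨hU, _⟩
    exact hU
  have hM2 : ∀ x, Neg x → ∀ u ∈ M, ⁅x, u⁆ ∈ M := by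
    intro x hx u hu
    rw [Submodule.mem_sInf] at *
    intro U hU
    exact hU.2 x hx u (hu U hU)
  have hMle : ∀ U : Submodule K V, B.v t ∈ U → (∀ x, Neg x → ∀ u ∈ U, ⁅x, u⁆ ∈ U) → M ≤ U :=
    fun U h1 h2 => sInf_le ⟨h1, h2⟩
  -- `M` is stable
  have hM3 : ∀ x : L, ∀ u ∈ M, ⁅x, u⁆ ∈ M := by
    let U : Submodule K V :=
      { carrier := {u | u ∈ M ∧ ∀ x : L, ⁅x, u⁆ ∈ M}
        add_mem' := by
          rintro a a' ⟨h1, h2⟩ ⟨h3, h4⟩
          exact ⟨M.add_mem h1 h3, fun x => by rw [lie_add]; exact M.add_mem (h2 x) (h4 x)⟩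
        zero_mem' := ⟨M.zero_mem, fun x => by rw [lie_zero]; exact M.zero_mem⟩
        smul_mem' := by
          rintro k a ⟨h1, h2⟩
          exact ⟨M.smul_mem _ h1, fun x => by rw [lie_smul]; exact M.smul_mem _ (h2 x)⟩ }
    have hU : M ≤ U := by
      apply hMle
      · refine ⟨hM1, fun x => ?_⟩
        let X : Submodule K L :=
          { carrier := {x | ⁅x, B.v t⁆ ∈ M}
            add_mem' := by
              intro a b ha hb
              simp only [Set.mem_ofPred_eq, add_lie] at *
              exact add_mem ha hb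
            zero_mem' := by simp
            smul_mem' := by
              intro c a ha
              simp only [Set.mem_ofPred_eq, smul_lie] at *
              exact Submodule.smul_mem _ _ ha }
        refine root_induction (U := X) (H := H) ?_ x
        intro α z hz
        change ⁅z, B.v t⁆ ∈ M
        by_cases hα : α.IsZero
        · have hzH : z ∈ H := by
            rw [hα.eq] at hz
            rwa [rootSpace_zero_eq, LieSubalgebra.mem_toLieSubmodule] at hz
          have h1 : ⁅z, B.v t⁆ = B.w t ⟨z, hzH⟩ • B.v t := B.lie_v t ⟨z, hzH⟩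
          rw [h1]
          exact Submodule.smul_mem _ _ hM1
        · have hα' : α ∈ H.root := by simpa [LieSubalgebra.root] using hα
          by_cases hpos : b.IsPos ⟨α, hα'⟩
          · have h0 : ⁅z, B.v t⁆ = 0 := by
              apply B.v.repr.injective
              rw [map_zero]
              ext j
              by_contra hj
              have h1 := B.coord_root (α := ⟨α, hα'⟩) hz hj (rho2 b)
              rw [hc, hc, root_rho] at h1
              have h2 : c j = 2 * b.height ⟨α, hα'⟩ + c t := by
                have : ((c j : ℤ) : K) = ((2 * b.height ⟨α, hα'⟩ + c t : ℤ) : K) := by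
                  rw [h1]; push_cast; ring
                exact Int.cast_injective this
              have h3 := ht j
              have h4 : 0 < b.height ⟨α, hα'⟩ := hpos
              omega
            rw [h0]; exact M.zero_mem
          · exact hM2 z ⟨⟨α, hα'⟩, hpos, hz⟩ _ hM1
      · rintro x hx u ⟨hu1, hu2⟩
        refine ⟨hM2 x hx u hu1, fun z => ?_⟩
        rw [leibniz_lie]
        exact M.add_mem (hu2 _) (hM2 x hx _ (hu2 z))
    intro x u hu
    exact (hU hu).2 x
  have hM4 : M = ⊤ := by
    rcases hirr M hM3 with h | h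
    · exfalso
      rw [h, Submodule.mem_bot] at hM1
      exact B.v.ne_zero t hM1
    · exact h
  -- comparison
  let N : Submodule K V :=
    { carrier := {u | ∀ i, c i = c t → i ≠ t → B.v.repr u i = 0}
      add_mem' := by
        intro a a' ha hb j hj hjt
        rw [map_add, Finsupp.add_apply, ha j hj hjt, hb j hj hjt, add_zero]
      zero_mem' := by intro j _ _; simp
      smul_mem' := by
        intro c a ha j hj hjt
        rw [map_smul, Finsupp.smul_apply, ha j hj hjt, smul_zero] }
  have hN : M ≤ N := by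
    apply hMle
    · intro i _ hit
      rw [B.v.repr_self, Finsupp.single_apply, if_neg (Ne.symm hit)]
    · rintro x ⟨α, hα, hx⟩ u _ i hi _
      have e : u = ∑ j, B.v.repr u j • B.v j := (B.v.sum_repr _).symm
      rw [e, lie_sum, map_sum, Finsupp.finsetSum_apply]
      refine Finset.sum_eq_zero fun j _ => ?_
      rw [lie_smul, map_smul, Finsupp.smul_apply, smul_eq_mul]
      by_cases hj : B.v.repr ⁅x, B.v j⁆ i = 0
      · rw [hj, mul_zero]
      · exfalso
        have h1 := B.coord_root hx hj (rho2 b)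
        rw [hc, hc, root_rho] at h1
        have h2 : c i = 2 * b.height α + c j := by
          have : ((c i : ℤ) : K) = ((2 * b.height α + c j : ℤ) : K) := by
            rw [h1]; push_cast; ring
          exact Int.cast_injective this
        have h3 := ht j
        have h4 : ¬ 0 < b.height α := hα
        have h5 := b.height_ne_zero α
        omega
  intro i hi
  by_contra hit
  have h1 : B.v i ∈ N := hN (by rw [hM4]; trivial)
  have h2 := h1 i hi hit
  rw [B.v.repr_self, Finsupp.single_eq_same] at h2
  exact one_ne_zero h2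

/-- **The eigenvalues of the sum of the positive coroots on a symplectic module are odd.** -/
theorem odd_rho [Nonempty H.root]
    (hirr : ∀ W : Submodule K V, (∀ x : L, ∀ u ∈ W, ⁅x, u⁆ ∈ W) → W = ⊥ ∨ W = ⊤)
    (hnd : ω.Nondegenerate) (halt : ω.IsAlt)
    (hsk : ∀ (x : L) (u v : V), ω ⁅x, u⁆ v = - ω u ⁅x, v⁆)
    (b : (rootSystem H).Base) :
    ∃ c : I → ℤ, (∀ i, B.w i (rho2 b) = (c i : K)) ∧ ∀ i, Odd (c i) := by
  classical
  obtain ⟨c, hc, hpar⟩ := exists_int B hirr hnd hsk b
  refine ⟨c, hc, ?_⟩
  rcases isEmpty_or_nonempty I with hI | hI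
  · exact fun i => isEmptyElim i
  obtain ⟨t, ht⟩ := Finite.exists_max c
  have huniq := top_unique B hirr b hc ht
  -- the top eigenvalue is nonnegative
  have hneg : ∃ j, c j = - c t := by
    have h2 : B.v.repr ((B.dual hnd hsk).v t) ≠ 0 := by
      intro h
      exact (B.dual hnd hsk).v.ne_zero t (B.v.repr.map_eq_zero_iff.mp h)
    obtain ⟨j, hj⟩ := Finsupp.ne_iff.mp h2
    refine ⟨j, ?_⟩
    have h3 : B.w j (rho2 b) = (- B.w t) (rho2 b) := B.coord ((B.dual hnd hsk).lie_v t (rho2 b)) hj
    rw [LinearMap.neg_apply, hc, hc] at h3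
    exact_mod_cast h3
  have hnn : 0 ≤ c t := by
    obtain ⟨j, hj⟩ := hneg
    have := ht j
    omega
  obtain ⟨m, hm⟩ := Int.eq_ofNat_of_zero_le hnn
  suffices hodd : Odd (c t) by
    intro i
    have h1 := hpar i t
    have : c i = (c i - c t) + c t := by ring
    rw [this]
    exact h1.add_odd hodd
  by_contra heven
  rw [Int.not_odd_iff_even] at heven
  have hme : Even m := by
    rw [hm] at heven
    exact_mod_cast heven
  obtain ⟨e, f, htr, es, fs, hes, hfs, he, hf⟩ := exists_principal b
  -- the top vector is primitive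
  have hprim : htr.HasPrimitiveVectorWith (B.v t) ((m : ℕ) : K) := by
    refine ⟨B.v.ne_zero t, ?_, ?_⟩
    · rw [B.lie_v, hc, hm, Int.cast_natCast]
    · rw [he, sum_lie]
      refine Finset.sum_eq_zero fun j hj => ?_
      apply B.v.repr.injective
      rw [map_zero]
      ext i
      by_contra hi
      have h1 := B.coord_root (hes j) hi (rho2 b)
      rw [hc, hc, root_rho] at h1
      have h2 : c i = 2 * b.height j + c t := by
        have : ((c i : ℤ) : K) = ((2 * b.height j + c t : ℤ) : K) := by
          rw [h1]; push_cast; ring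
        exact Int.cast_injective this
      have h3 := ht i
      have h4 : b.height j = 1 := RootPairing.Base.height_one_of_mem_support hj
      omega
  -- the lowest vector does not vanish
  have hpow : ∀ n : ℕ, n ≤ m → ((toEnd K L V f) ^ n) (B.v t) ≠ 0 := by
    intro n
    induction n with
    | zero => intro _; simpa using B.v.ne_zero t
    | succ n ih =>
      intro hn h0
      have h1 := hprim.lie_e_pow_succ_toEnd_f n
      rw [h0, lie_zero] at h1
      have h2 := (smul_eq_zero.mp h1.symm).resolve_right (ih (by omega))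
      have h3 : ((n : K) + 1) ≠ 0 := by exact_mod_cast Nat.succ_ne_zero n
      have h4 := (mul_eq_zero.mp h2).resolve_left h3
      have h5 : (m : K) = (n : K) := sub_eq_zero.mp h4
      have h6 : m = n := Nat.cast_injective h5
      omega
  set z := ((toEnd K L V f) ^ m) (B.v t) with hz
  have hz0 : z ≠ 0 := hpow m le_rfl
  have hzw : ⁅((rho2 b : H) : L), z⁆ = (-(m : K)) • z := by
    have := hprim.lie_h_pow_toEnd_f m
    rw [← hz] at this
    rw [this]
    congr 1
    ring
  -- `z` is orthogonal to all basis vectors except the top one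
  have horth : ∀ i, i ≠ t → ω z (B.v i) = 0 := by
    intro i hi
    have h1 := hsk ((rho2 b : H) : L) z (B.v i)
    rw [hzw, B.lie_v, hc, map_smul, map_smul, LinearMap.smul_apply, smul_eq_mul, smul_eq_mul] at h1
    have h2 : ((c i : K) - (m : K)) * ω z (B.v i) = 0 := by linear_combination h1
    rcases mul_eq_zero.mp h2 with h | h
    · exfalso
      apply hi
      apply huniq
      rw [hm]
      have : ((c i : ℤ) : K) = (((m : ℕ) : ℤ) : K) := by
        rw [Int.cast_natCast]; exact sub_eq_zero.mp h
      exact Int.cast_injective this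
    · exact h
  have hzt : ω z (B.v t) = 0 := by
    have hpowsk : ∀ (n : ℕ) (u v : V), ω (((toEnd K L V f) ^ n) u) v =
        (-1) ^ n * ω u (((toEnd K L V f) ^ n) v) := by
      intro n
      induction n with
      | zero => intro u v; simp
      | succ n ih =>
        intro u v
        have e1 : ((toEnd K L V f) ^ (n + 1)) u = ((toEnd K L V f) ^ n) ⁅f, u⁆ := by
          rw [pow_succ]; rfl
        have e2 : ((toEnd K L V f) ^ (n + 1)) v = ⁅f, ((toEnd K L V f) ^ n) v⁆ := by
          rw [pow_succ']; rfl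
        rw [e1, e2, ih, hsk]
        ring
    have h1 := hpowsk m (B.v t) (B.v t)
    rw [← hz, hme.neg_one_pow, one_mul] at h1
    have h2 : ω (B.v t) z = - ω z (B.v t) := (halt.neg_eq z (B.v t)).symm
    rw [h2] at h1
    have h3 : (2 : K) * ω z (B.v t) = 0 := by linear_combination h1
    exact (mul_eq_zero.mp h3).resolve_left two_ne_zero
  apply hz0
  apply hnd.1
  intro v
  have h1 : ω z = 0 := by
    refine B.v.ext fun i => ?_
    rw [LinearMap.zero_apply]
    by_cases hi : i = t
    · rw [hi, hzt]
    · exact horth i hi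
  rw [h1]; rfl

end rep

end T

end MTP.MF
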