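import Pool.Agent.Helper21.MT.Span

/-!
The involutions of a Lie algebra generated by involutions span it.
-/

open Module

namespace MTP.MF

variable {K : Type*} [Field K] {V : Type*} [AddCommGroup V] [Module K V] [FiniteDimensional K V]
variable {ω : LinearMap.BilinForm K V} {L : Submodule K (Module.End K V)}
  {S : Set (Module.End K V)}

/-- The involutions of `L`. -/
def Inv (L : Submodule K (Module.End K V)) : Set (Module.End K V) := {x | x ∈ L ∧ x * x = 1}

lemma inv_comm [CharZero K] (hC : Ctx ω L S) {s : Module.End K V} (hs : s ∈ S)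
    {x : Module.End K V} (hx : x ∈ Submodule.span K (Inv L)) :
    s * x - x * s ∈ Submodule.span K (Inv L) := by
  obtain ⟨hsL, hss⟩ := hC.inv s hs
  induction hx using Submodule.span_induction with
  | zero => simp
  | add a b _ _ ha hb =>
    have : s * (a + b) - (a + b) * s = (s * a - a * s) + (s * b - b * s) := by noncomm_ring
    rw [this]; exact Submodule.add_mem _ ha hb
  | smul c a _ ha =>
    have : s * (c • a) - (c • a) * s = c • (s * a - a * s) := by
      rw [mul_smul_comm, smul_mul_assoc, smul_sub]
    rw [this]; exact Submodule.smul_mem _ _ ha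
  | mem x hx =>
    have h1 : ∀ t : K, t ≠ 0 → (pp s * x * pp s + qq s * x * qq s) + t • (pp s * x * qq s)
        + t⁻¹ • (qq s * x * pp s) ∈ Submodule.span K (Inv L) := by
      intro t ht
      rw [← torus_conj_eq ht]
      apply Submodule.subset_span
      refine ⟨hC.torus_mem hs ht hx.1, ?_⟩
      have e1 := torus_inv hss ht
      have e2 := torus_inv' hss ht
      calc (t • pp s + qq s) * x * (t⁻¹ • pp s + qq s) * ((t • pp s + qq s) * x *
            (t⁻¹ • pp s + qq s))
          = (t • pp s + qq s) * x * ((t⁻¹ • pp s + qq s) * (t • pp s + qq s)) * x *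
            (t⁻¹ • pp s + qq s) := by simp only [mul_assoc]
        _ = (t • pp s + qq s) * (x * x) * (t⁻¹ • pp s + qq s) := by
            rw [e1, mul_one, mul_assoc (t • pp s + qq s) x x]
        _ = 1 := by rw [hx.2, mul_one, e2]
    have a1 := h1 1 one_ne_zero
    have a2 := h1 (-1) (by norm_num)
    have a3 := h1 2 two_ne_zero
    set x0 := pp s * x * pp s + qq s * x * qq s with hx0
    set xp := pp s * x * qq s with hxp
    set xq := qq s * x * pp s with hxq
    have hsx : s * x - x * s = (2 : K) • xp - (2 : K) • xq := by
      have e1 : s * x - x * s = (pp s - qq s) * x * (pp s + qq s)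
        - (pp s + qq s) * x * (pp s - qq s) := by
        rw [pp_sub_qq, pp_add_qq]; simp
      rw [e1, hxp, hxq]
      have : (pp s - qq s) * x * (pp s + qq s) - (pp s + qq s) * x * (pp s - qq s)
        = 2 • (pp s * x * qq s) - 2 • (qq s * x * pp s) := by noncomm_ring
      rw [this]
      module
    rw [hsx]
    have e2 : (2 : K) • xp - (2 : K) • xq =
        (-3 : K) • (x0 + (1 : K) • xp + (1 : K)⁻¹ • xq)
         + (1 / 3 : K) • (x0 + (-1 : K) • xp + (-1 : K)⁻¹ • xq)
         + (8 / 3 : K) • (x0 + (2 : K) • xp + (2 : K)⁻¹ • xq) := by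
      match_scalars <;> norm_num
    rw [e2]
    exact Submodule.add_mem _ (Submodule.add_mem _ (Submodule.smul_mem _ _ a1)
      (Submodule.smul_mem _ _ a2)) (Submodule.smul_mem _ _ a3)

/-- The involutions span. -/
theorem inv_span [CharZero K] (hC : Ctx ω L S) : L ≤ Submodule.span K (Inv L) := by
  have hle : Submodule.span K (Inv L) ≤ L := Submodule.span_le.mpr (fun x hx => hx.1)
  let M : Submodule K (Module.End K V) :=
    { carrier := {z | ∀ x ∈ Submodule.span K (Inv L), z * x - x * z ∈ Submodule.span K (Inv L)}
      add_mem' := by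
        intro a b ha hb x hx
        have : (a + b) * x - x * (a + b) = (a * x - x * a) + (b * x - x * b) := by noncomm_ring
        rw [this]; exact Submodule.add_mem _ (ha x hx) (hb x hx)
      zero_mem' := by intro x _; simp
      smul_mem' := by
        intro c a ha x hx
        have : (c • a) * x - x * (c • a) = c • (a * x - x * a) := by
          rw [mul_smul_comm, smul_mul_assoc, smul_sub]
        rw [this]; exact Submodule.smul_mem _ _ (ha x hx) }
  have h : L ≤ M := by
    apply hC.gen
    · intro a ha b hb x hx
      have h1 := ha _ (hb x hx)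
      have h2 := hb _ (ha x hx)
      have e : (a * b - b * a) * x - x * (a * b - b * a) =
        (a * (b * x - x * b) - (b * x - x * b) * a) -
          (b * (a * x - x * a) - (a * x - x * a) * b) := by
        noncomm_ring
      rw [e]
      exact Submodule.sub_mem _ h1 h2
    · intro s hs x hx
      exact inv_comm hC hs hx
  apply hC.gen
  · intro x hx y hy
    exact h (hle hx) y hy
  · intro s hs
    exact Submodule.subset_span (hC.inv s hs)

end MTP.MF
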