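import Pool.Agent.Helper88.MT.Extremal
import Pool.Agent.Helper88.MT.InvSpan
import Pool.Agent.Helper21.MT.Sp
import Pool.Agent.Helper54.MT.Wrap
import Pool.Agent.Helper54.MT.CartanIn
import Pool.Agent.Helper54.MT.IntDiag

/-!
The mod four theorem for a simple Lie algebra, and in general.
-/

open Module LieModule LieAlgebra LieAlgebra.IsKilling
open Pool.Agent.Helper54.MT (nodd oddPart int_of_diag semisimple_of_int nonsimple
  exists_cartan_end killing_of)

attribute [local instance 100] LieRing.ofAssociativeRing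

namespace MTP.MF

section count

variable {K : Type*} [Field K] [CharZero K] {V : Type*} [AddCommGroup V] [Module K V]
  [FiniteDimensional K V]

open Classical in
/-- The number of odd eigenvalues in an eigenbasis. -/
lemma nodd_eq_card {I : Type*} [Fintype I] (v : Basis I K V) (y : Module.End K V) (a : I → ℤ)
    (ha : ∀ i, y (v i) = (a i : K) • v i) :
    nodd y = (Finset.univ.filter (fun i => Odd (a i))).card := by
  have h1 : oddPart y = Submodule.span K (Set.range (fun i : {i // Odd (a i)} => v i)) := by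
    apply le_antisymm
    · apply iSup_le
      rintro ⟨k, hk⟩ u hu
      rw [Module.End.mem_eigenspace_iff] at hu
      rw [← v.sum_repr u]
      refine Submodule.sum_mem _ fun i _ => ?_
      by_cases hi : v.repr u i = 0
      · rw [hi, zero_smul]; exact zero_mem _
      · have h2 : v.repr (y u) i = (a i : K) * v.repr u i := by
          have e : y u = ∑ j, (v.repr u j * (a j : K)) • v j := by
            conv_lhs => rw [← v.sum_repr u]
            rw [map_sum]
            refine Finset.sum_congr rfl fun j _ => ?_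
            rw [map_smul, ha, smul_smul]
          rw [e, v.repr_sum_self, mul_comm]
        rw [hu, map_smul, Finsupp.smul_apply, smul_eq_mul] at h2
        have h3 : ((k : ℤ) : K) = ((a i : ℤ) : K) := mul_right_cancel₀ hi h2
        have h4 : k = a i := Int.cast_injective h3
        exact Submodule.smul_mem _ _ (Submodule.subset_span ⟨⟨i, h4 ▸ hk⟩, rfl⟩)
    · rw [Submodule.span_le]
      rintro _ ⟨i, rfl⟩
      refine Submodule.mem_iSup_of_mem (p := fun k : {k : ℤ // Odd k} =>
        y.eigenspace ((k : ℤ) : K)) ⟨a i, i.2⟩ ?_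
      rw [Module.End.mem_eigenspace_iff]
      exact ha i
  have h2 : LinearIndependent K (fun i : {i // Odd (a i)} => v i) :=
    v.linearIndependent.comp _ Subtype.val_injective
  unfold nodd
  rw [h1, finrank_span_eq_card h2, Fintype.card_subtype]

open Classical in
lemma sum_sq_mod {I : Type*} [Fintype I] (a : I → ℤ) :
    ∃ t : ℤ, ∑ i, a i ^ 2 = ((Finset.univ.filter (fun i => Odd (a i))).card : ℤ) + 4 * t := by
  have h1 : ∀ i, ∃ t : ℤ, a i ^ 2 = (if Odd (a i) then 1 else 0) + 4 * t := by
    intro i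
    split_ifs with h
    · obtain ⟨k, hk⟩ := h
      exact ⟨k * k + k, by rw [hk]; ring⟩
    · rw [Int.not_odd_iff_even] at h
      obtain ⟨k, hk⟩ := h
      exact ⟨k * k, by rw [hk]; ring⟩
  choose t ht using h1
  refine ⟨∑ i, t i, ?_⟩
  rw [Finset.sum_congr rfl fun i _ => ht i, Finset.sum_add_distrib, ← Finset.mul_sum,
    Finset.sum_boole]

open Classical in
lemma sum_mul_mod {I : Type*} [Fintype I] (a c : I → ℤ) (hc : ∀ i, Odd (c i))
    (hsymm : ∀ ψ : ℤ → ℤ → ℤ, ∑ i, ψ (a i) (c i) = ∑ i, ψ (-a i) (-c i)) :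
    ∃ t : ℤ, ∑ i, a i * c i = ((Finset.univ.filter (fun i => Odd (a i))).card : ℤ) + 4 * t := by
  let χ : ℤ → ℤ → ℤ := fun a c => a * c - (if Odd a then 1 else 0)
  let ψ : ℤ → ℤ → ℤ := fun a c => if 0 < c then χ a c else 0
  have hχ : ∀ i, Even (χ (a i) (c i)) := by
    intro i
    simp only [χ]
    split_ifs with h
    · exact (h.mul (hc i)).sub_odd odd_one
    · rw [Int.not_odd_iff_even] at h
      rw [sub_zero]
      exact h.mul_right _
  have hneg : ∀ x z, χ (-x) (-z) = χ x z := by
    intro x z
    simp only [χ, neg_mul_neg, odd_neg]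
  have h1 := hsymm ψ
  have h2 : ∑ i, χ (a i) (c i) = ∑ i, ψ (a i) (c i) + ∑ i, ψ (-a i) (-c i) := by
    rw [← Finset.sum_add_distrib]
    refine Finset.sum_congr rfl fun i _ => ?_
    simp only [ψ, hneg]
    rcases lt_trichotomy (c i) 0 with h | h | h
    · rw [if_neg (by omega), if_pos (by omega), zero_add]
    · exfalso
      have := hc i
      rw [h] at this
      exact (by decide : ¬ Odd (0 : ℤ)) this
    · rw [if_pos h, if_neg (by omega), add_zero]
  have h3 : Even (∑ i, ψ (a i) (c i)) := by
    refine Finset.even_sum _ fun i _ => ?_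
    simp only [ψ]
    split_ifs
    · exact hχ i
    · exact Even.zero
  obtain ⟨t, ht⟩ := h3
  refine ⟨t, ?_⟩
  rw [← h1, ht] at h2
  have h4 : ∑ i, χ (a i) (c i) = ∑ i, a i * c i -
      ((Finset.univ.filter (fun i => Odd (a i))).card : ℤ) := by
    simp only [χ]
    rw [Finset.sum_sub_distrib, Finset.sum_boole]
  linarith

end count

variable {K : Type*} [Field K] {V : Type*} [AddCommGroup V] [Module K V] [FiniteDimensional K V]
variable {ω : LinearMap.BilinForm K V} {L : LieSubalgebra K (Module.End K V)}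

/-- **The case of a simple Lie algebra.** -/
theorem simple_case [CharZero K] [IsAlgClosed K] {S : Set (Module.End K V)}
    (hC : MTP.Ctx ω L.toSubmodule S) (halt : ω.IsAlt) (hsimple : IsSimple K L)
    {y : Module.End K V} (hy : y ∈ L) (hdiag : ⨆ n : ℤ, y.eigenspace (n : K) = ⊤)
    (h4 : nodd y % 4 = 2) {z : Module.End K V} (hz : IsSk ω z) : z ∈ L := by
  classical
  have hVn : Nontrivial V := by
    by_contra hcon
    rw [not_nontrivial_iff_subsingleton] at hcon
    have : nodd y = 0 := by
      unfold nodd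
      exact finrank_zero_of_subsingleton
    omega
  have hnd := hC.nd
  have hk : IsKilling K L := killing_of hnd hC.irr
  obtain ⟨H, hH, hyH⟩ := exists_cartan_end (L := L) ⟨y, hy⟩ (semisimple_of_int hdiag)
  have hirrR : (rootSystem H).IsIrreducible := inferInstance
  have hne : Nonempty H.root := by
    by_contra hcon
    rw [not_nonempty_iff] at hcon
    have hN : Nontrivial H := RootPairing.IsIrreducible.nontrivial' (rootSystem H)
    have h1 : (⊤ : Submodule K H) = ⊥ := by
      have h2 : (rootSystem H).corootSpan K = ⊤ := RootPairing.IsRootSystem.span_coroot_eq_top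
      rw [← h2, RootPairing.corootSpan, Set.range_eq_empty, Submodule.span_empty]
    exact bot_ne_top h1.symm
  have hirr : ∀ W : Submodule K V, (∀ x : L, ∀ u ∈ W, ⁅x, u⁆ ∈ W) → W = ⊥ ∨ W = ⊤ :=
    fun W hW => hC.irr.irr W fun z hz w hw => hW ⟨z, hz⟩ w hw
  have hsk : ∀ (x : L) (u v : V), ω ⁅x, u⁆ v = - ω u ⁅x, v⁆ := by
    intro x u v
    exact hC.irr.sk x x.2 u v
  have hfaith : ∀ x : L, (∀ u : V, ⁅x, u⁆ = 0) → x = 0 := by
    intro x hx
    apply Subtype.ext
    ext u
    exact hx u
  obtain ⟨n, ⟨B⟩⟩ := exists_WB (V := V) (H := H) hirr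
  -- the involutions span
  have hspan : ∀ x : L, x ∈ Submodule.span K {s : L | ∀ u : V, ⁅s, ⁅s, u⁆⁆ = u} := by
    intro x
    let U : Submodule K (Module.End K V) :=
      (Submodule.span K {s : L | ∀ u : V, ⁅s, ⁅s, u⁆⁆ = u}).map L.toSubmodule.subtype
    have h1 : Submodule.span K (Inv L.toSubmodule) ≤ U := by
      rw [Submodule.span_le]
      rintro s ⟨hs, hss⟩
      refine ⟨⟨s, hs⟩, Submodule.subset_span ?_, rfl⟩
      intro u
      exact LinearMap.congr_fun hss u
    obtain ⟨x', hx', hxx⟩ := h1 (inv_span hC x.2)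
    have : x' = x := Subtype.ext hxx
    rw [← this]; exact hx'
  obtain ⟨g, θ, hg, h0, e, f, ht, he, hf, hsq⟩ := exists_long (H := H) (V := V) hspan
  have hEF : traceForm K L V e f = (rk (e : Module.End K V) : K) := by
    rw [traceForm_apply_apply]
    refine trace_ef (e := (e : Module.End K V)) (f := (f : Module.End K V))
      (h := (((coroot θ.1 : H) : L) : Module.End K V)) hsq ?_ ?_
    · exact congrArg Subtype.val ht.lie_e_f
    · have := congrArg Subtype.val (ht.lie_h_e_smul K)
      exact this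
  by_cases hodd : Odd (rk (e : Module.End K V))
  · exact hC.eq_sp_of_odd halt e.2 hsq hodd hz
  exfalso
  rw [Nat.not_odd_iff_even] at hodd
  obtain ⟨r, hr⟩ := hodd
  have hr0 : r ≠ 0 := by
    rintro rfl
    have h1 : rk (e : Module.End K V) = 0 := by omega
    rw [rk_eq_zero] at h1
    exact ht.e_ne_zero (Subtype.ext h1)
  -- the trace form
  set T : LinearMap.BilinForm K H := traceForm K H V with hT
  have hTθ : T (coroot θ.1) (coroot θ.1) = 4 * (r : K) := by
    rw [hT, tf_coroot_self ht he, hEF, hr]; push_cast; ring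
  have hT0 : T ≠ 0 := by
    intro h
    rw [h] at hTθ
    have h1 : (4 : K) * (r : K) ≠ 0 :=
      mul_ne_zero (by norm_num) (by exact_mod_cast hr0)
    exact h1 hTθ.symm
  have hTi : ∀ i x y, T ((rootSystem H).coreflection i x) ((rootSystem H).coreflection i y) =
      T x y := fun i x y => tf_invariant i x y
  have hmult := exists_mult (θ := θ) T hT0 (fun x y => traceForm_comm K H V x y) hTi
    (fun i h1 h2 => top_pairing hg h0 h1 h2)
  choose c hc using hmult
  -- a base
  obtain ⟨b⟩ := RootPairing.nonempty_base (rootSystem H)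
  -- the eigenvalues of `y`
  set y' : H := ⟨⟨y, hy⟩, hyH⟩ with hy'
  have hya : ∀ i, ∃ k : ℤ, (k : K) = B.w i y' := by
    intro i
    apply int_of_diag hdiag
    intro h
    have h1 : B.v i ∈ y.eigenspace (B.w i y') := by
      rw [Module.End.mem_eigenspace_iff]
      exact B.lie_v i y'
    rw [h, Submodule.mem_bot] at h1
    exact B.v.ne_zero i h1
  choose a ha using hya
  have hroot : ∀ α : H.root, ∃ k : ℤ, (rootSystem H).root' α y' = (k : K) := by
    intro α
    obtain ⟨i, j, hij⟩ := B.root_apply hfaith α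
    refine ⟨a j - a i, ?_⟩
    have h1 := hij y'
    rw [← ha, ← ha] at h1
    rw [root'_apply]
    push_cast
    linear_combination -h1
  choose ar har using hroot
  obtain ⟨d, hd, hdodd⟩ := odd_rho B hirr hnd halt hsk b
  have hN : nodd y = (Finset.univ.filter (fun i => Odd (a i))).card := by
    apply nodd_eq_card B.v y a
    intro i
    rw [ha]
    exact B.lie_v i y'
  obtain ⟨t1, ht1⟩ := sum_sq_mod a
  obtain ⟨t2, ht2⟩ := sum_mul_mod a d hdodd (by
    intro ψ
    let φ : Dual K H → K := fun w =>
      if h : ∃ p : ℤ × ℤ, w y' = (p.1 : K) ∧ w (rho2 b) = (p.2 : K) then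
        ((ψ h.choose.1 h.choose.2 : ℤ) : K) else 0
    have hφ : ∀ (w : Dual K H) (p q : ℤ), w y' = (p : K) → w (rho2 b) = (q : K) →
        φ w = ((ψ p q : ℤ) : K) := by
      intro w p q hp hq
      have h : ∃ p : ℤ × ℤ, w y' = (p.1 : K) ∧ w (rho2 b) = (p.2 : K) := ⟨(p, q), hp, hq⟩
      simp only [φ]
      rw [dif_pos h]
      have h1 := h.choose_spec
      have h2 : h.choose.1 = p := Int.cast_injective (h1.1.symm.trans hp)
      have h3 : h.choose.2 = q := Int.cast_injective (h1.2.symm.trans hq)
      rw [h2, h3]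
    have h1 := B.sum_symm hnd hsk φ
    have h2 : ∀ i, φ (B.w i) = ((ψ (a i) (d i) : ℤ) : K) :=
      fun i => hφ _ _ _ (ha i).symm (hd i)
    have h3 : ∀ i, φ (- B.w i) = ((ψ (-a i) (-d i) : ℤ) : K) := by
      intro i
      apply hφ
      · rw [LinearMap.neg_apply, ← ha]; push_cast; ring
      · rw [LinearMap.neg_apply, hd]; push_cast; ring
    simp only [h2, h3] at h1
    exact_mod_cast h1)
  rw [← hN] at ht1 ht2
  obtain ⟨q, hq⟩ : ∃ q : ℤ, (nodd y : ℤ) = 2 + 4 * q := ⟨(nodd y : ℤ) / 4, by omega⟩
  have key := root_key b T hT0 hTi (fun i => c i * (r : ℤ)) (by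
      intro i
      rw [hc i]
      change (c i : K) * T (coroot θ.1) (coroot θ.1) = _
      rw [hTθ]; push_cast; ring)
    y' ar har (1 + 2 * q + 2 * t1) (1 + 2 * q + 2 * t2) (by
      have h1 : T y' y' = ∑ i, B.w i y' * B.w i y' := B.traceForm_apply y' y'
      rw [h1]
      have h2 : ∑ i, B.w i y' * B.w i y' = ((∑ i, a i ^ 2 : ℤ) : K) := by
        rw [Int.cast_sum]
        refine Finset.sum_congr rfl fun i _ => ?_
        rw [← ha]; push_cast; ring
      rw [h2, ht1, hq]
      push_cast; ring) (by
      have h1 : T y' (rho2 b) = ∑ i, B.w i y' * B.w i (rho2 b) := B.traceForm_apply y' (rho2 b)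
      rw [h1]
      have h2 : ∑ i, B.w i y' * B.w i (rho2 b) = ((∑ i, a i * d i : ℤ) : K) := by
        rw [Int.cast_sum]
        refine Finset.sum_congr rfl fun i _ => ?_
        rw [← ha, hd]; push_cast; ring
      rw [h2, ht2, hq]
      push_cast; ring)
    ⟨t2 - t1, by ring⟩
  obtain ⟨k, hk⟩ := key
  omega

/-- **The mod four theorem, Lie algebra form.** -/
theorem eq_sp_of_mod_four [CharZero K] [IsAlgClosed K] {S : Set (Module.End K V)}
    (hC : MTP.Ctx ω L.toSubmodule S) (halt : ω.IsAlt)
    {y : Module.End K V} (hy : y ∈ L) (hdiag : ⨆ n : ℤ, y.eigenspace (n : K) = ⊤)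
    (h4 : nodd y % 4 = 2) (hne : 2 * nodd y ≠ finrank K V)
    {z : Module.End K V} (hz : IsSk ω z) : z ∈ L := by
  by_cases hs : IsSimple K L
  · exact simple_case hC halt hs hy hdiag h4 hz
  · exfalso
    rcases nonsimple hC hs hy (semisimple_of_int hdiag) (int_of_diag hdiag) with h | h
    · omega
    · exact hne h

end MTP.MF
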