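import Pool.Agent.Helper88.MT.Simple
import Pool.Agent.Helper21.MT.Norm

/-!
The complete case analysis: the number of odd eigenvalues and the dimension.
-/

open Module
open Pool.Agent.Helper54.MT (nodd oddPart)

namespace MTP.MF

variable {K : Type*} [Field K] {V : Type*} [AddCommGroup V] [Module K V] [FiniteDimensional K V]
variable {ω : LinearMap.BilinForm K V}

/-- The mod four theorem for a submodule closed under commutators. -/
theorem eq_sp_sub [CharZero K] [IsAlgClosed K] {L : Submodule K (Module.End K V)}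
    {S : Set (Module.End K V)} (hC : Ctx ω L S) (halt : ω.IsAlt)
    {y : Module.End K V} (hy : y ∈ L) (hdiag : ⨆ n : ℤ, y.eigenspace (n : K) = ⊤)
    (h4 : nodd y % 4 = 2) (hne : 2 * nodd y ≠ finrank K V)
    {z : Module.End K V} (hz : IsSk ω z) : z ∈ L := by
  let _ : LieRing (Module.End K V) := LieRing.ofAssociativeRing
  let L' : LieSubalgebra K (Module.End K V) :=
    { L with lie_mem' := by intro x y hx hy; exact hC.irr.br x hx y hy }
  exact eq_sp_of_mod_four (L := L') (S := S) hC halt hy hdiag h4 hne hz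

/-- A Lie algebra generated by involutions, irreducible on a nonzero space, contains an
involution. -/
lemma exists_inv {L : Submodule K (Module.End K V)} {S : Set (Module.End K V)}
    (hC : Ctx ω L S) (halt : ω.IsAlt) [Nontrivial V] : ∃ s, s ∈ S := by
  by_contra! hcon
  have h1 : L ≤ ⊥ := hC.gen ⊥ (by
    intro x hx y hy
    rw [Submodule.mem_bot] at *
    rw [hx, hy]; simp) (fun s hs => absurd hs (hcon s))
  obtain ⟨v, hv⟩ := exists_ne (0 : V)
  have h2 : ∀ W : Submodule K V, W = ⊥ ∨ W = ⊤ := by
    intro W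
    apply hC.irr.irr W
    intro z hz w hw
    have : z = 0 := (Submodule.mem_bot K).mp (h1 hz)
    rw [this]; exact zero_mem _
  rcases h2 (Submodule.span K {v}) with h | h
  · rw [Submodule.span_singleton_eq_bot] at h
    exact hv h
  · apply hv
    apply hC.nd.1
    intro w
    have hw : w ∈ Submodule.span K {v} := by rw [h]; trivial
    obtain ⟨c, rfl⟩ := Submodule.mem_span_singleton.mp hw
    rw [map_smul, halt v, smul_zero]

lemma eigen_pm [CharZero K] {s : Module.End K V} (hs : s * s = 1) (v : V) :
    pp s v ∈ s.eigenspace ((1 : ℤ) : K) ∧ qq s v ∈ s.eigenspace ((-1 : ℤ) : K) ∧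
      v = pp s v + qq s v := by
  have hss : ∀ x, s (s x) = x := fun x => LinearMap.congr_fun hs x
  refine ⟨?_, ?_, ?_⟩
  · rw [Module.End.mem_eigenspace_iff]
    simp only [pp, LinearMap.smul_apply, LinearMap.add_apply, Module.End.one_apply, map_smul,
      map_add, hss]
    push_cast
    module
  · rw [Module.End.mem_eigenspace_iff]
    simp only [qq, LinearMap.smul_apply, LinearMap.sub_apply, Module.End.one_apply, map_smul,
      map_sub, hss]
    push_cast
    module
  · have := LinearMap.congr_fun (pp_add_qq (s := s)) v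
    rw [LinearMap.add_apply, Module.End.one_apply] at this
    exact this.symm

/-- All eigenvalues of an involution are odd. -/
lemma nodd_inv [CharZero K] {s : Module.End K V} (hs : s * s = 1) : nodd s = finrank K V := by
  have h : oddPart s = ⊤ := by
    rw [eq_top_iff]
    intro v _
    obtain ⟨h1, h2, h3⟩ := eigen_pm hs v
    rw [h3]
    refine Submodule.add_mem _ ?_ ?_
    · exact Submodule.mem_iSup_of_mem (p := fun k : {k : ℤ // Odd k} =>
        s.eigenspace ((k : ℤ) : K)) ⟨1, odd_one⟩ h1
    · exact Submodule.mem_iSup_of_mem (p := fun k : {k : ℤ // Odd k} =>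
        s.eigenspace ((k : ℤ) : K)) ⟨-1, by decide⟩ h2
  unfold nodd
  rw [h, finrank_top]

lemma diag_inv [CharZero K] {s : Module.End K V} (hs : s * s = 1) :
    ⨆ n : ℤ, s.eigenspace (n : K) = ⊤ := by
  rw [eq_top_iff]
  intro v _
  obtain ⟨h1, h2, h3⟩ := eigen_pm hs v
  rw [h3]
  exact Submodule.add_mem _ (Submodule.mem_iSup_of_mem (1 : ℤ) h1)
    (Submodule.mem_iSup_of_mem (-1 : ℤ) h2)

/-- The dimension is even. -/
lemma even_dim [CharZero K] (hω : ω.Nondegenerate) {s : Module.End K V} (hs : s * s = 1)
    (hsk : IsSk ω s) : Even (finrank K V) := by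
  have h1 : rk (pp s) = rk (qq s) := rk_adjoint hω (fun v w => adj_pp hsk v w)
  have h2 : rk (pp s + qq s) = rk (pp s) + rk (qq s) := by
    apply rk_add (p := pp s) (q := pp s)
    · exact pp_mul_pp hs
    · exact pp_mul_qq hs
    · exact pp_mul_pp hs
    · exact qq_mul_pp hs
  have h3 : rk (pp s + qq s) = finrank K V := by
    rw [pp_add_qq]
    unfold rk
    have : LinearMap.range (1 : Module.End K V) = ⊤ := LinearMap.range_eq_top.mpr
      (fun v => ⟨v, rfl⟩)
    rw [this, finrank_top]
  rw [← h3, h2, h1]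
  exact ⟨_, rfl⟩

/-- The rank of an element of square zero is at most half of the dimension. -/
lemma rk_le_half {x : Module.End K V} (hx : x * x = 0) : 2 * rk x ≤ finrank K V := by
  have h1 : LinearMap.range x ≤ LinearMap.ker x := by
    rintro _ ⟨v, rfl⟩
    exact LinearMap.congr_fun hx v
  have h2 := Submodule.finrank_mono h1
  have h3 := LinearMap.finrank_range_add_finrank_ker x
  unfold rk
  omega

/-- There is a nonzero element of square zero. -/
lemma exists_sq_zero [CharZero K] [IsAlgClosed K] {L : Submodule K (Module.End K V)}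
    {S : Set (Module.End K V)} (hC : Ctx ω L S) {s : Module.End K V} (hs : s ∈ S)
    [Nontrivial V] : ∃ x ∈ L, x ≠ 0 ∧ x * x = 0 := by
  obtain ⟨hsL, hss⟩ := hC.inv s hs
  by_contra! hcon
  have hcomm : ∀ z ∈ L, s * z = z * s := by
    intro z hz
    obtain ⟨h1, h2, -⟩ := comps_mem hss (M := L) (fun x hx => hC.irr.br s hsL x hx) hz
    have e1 : pp s * z * qq s = 0 := by
      by_contra h0
      apply hcon _ h1 h0
      calc pp s * z * qq s * (pp s * z * qq s) = pp s * z * (qq s * pp s) * z * qq s := by
            noncomm_ring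
        _ = 0 := by rw [qq_mul_pp hss]; simp
    have e2 : qq s * z * pp s = 0 := by
      by_contra h0
      apply hcon _ h2 h0
      calc qq s * z * pp s * (qq s * z * pp s) = qq s * z * (pp s * qq s) * z * pp s := by
            noncomm_ring
        _ = 0 := by rw [pp_mul_qq hss]; simp
    have e3 : s * z - z * s = (pp s - qq s) * z * (pp s + qq s)
        - (pp s + qq s) * z * (pp s - qq s) := by
      rw [pp_sub_qq, pp_add_qq]; simp
    have e4 : (pp s - qq s) * z * (pp s + qq s) - (pp s + qq s) * z * (pp s - qq s)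
        = 2 • (pp s * z * qq s) - 2 • (qq s * z * pp s) := by noncomm_ring
    rw [e4, e1, e2] at e3
    simp only [smul_zero, sub_zero] at e3
    exact sub_eq_zero.mp e3
  -- both eigenspaces would be invariant
  have key : ∀ (c : K), s.eigenspace c = ⊥ ∨ s.eigenspace c = ⊤ := by
    intro c
    apply hC.irr.irr
    intro z hz w hw
    rw [Module.End.mem_eigenspace_iff] at *
    have h1 : s (z w) = z (s w) := LinearMap.congr_fun (hcomm z hz) w
    rw [h1, hw, map_smul]
  obtain ⟨c, hc⟩ := Module.End.exists_eigenvalue s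
  have htop := (key c).resolve_left hc
  have hsc : ∀ v, s v = c • v := by
    intro v
    have : v ∈ s.eigenspace c := by rw [htop]; trivial
    exact Module.End.mem_eigenspace_iff.mp this
  have htr := trace_eq_zero_of_sk hC.nd (hC.irr.sk s hsL)
  have h1 : s = c • (1 : Module.End K V) := LinearMap.ext hsc
  rw [h1, map_smul, LinearMap.trace_one, smul_eq_mul] at htr
  have hdim : (finrank K V : K) ≠ 0 := by
    have : finrank K V ≠ 0 := finrank_pos.ne'
    exact_mod_cast this
  have hc0 := (mul_eq_zero.mp htr).resolve_right hdim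
  obtain ⟨v, hv⟩ := exists_ne (0 : V)
  apply hv
  have h2 : s (s v) = v := LinearMap.congr_fun hss v
  rw [hsc v, hc0, zero_smul, map_zero] at h2
  exact h2.symm

open Classical in
/-- The number of odd eigenvalues of an infinitesimal symplectic operator is even. -/
lemma even_card [CharZero K] (hω : ω.Nondegenerate) {I : Type*} [Fintype I] (v : Basis I K V)
    (a : I → ℤ) {y : Module.End K V} (ha : ∀ i, y (v i) = (a i : K) • v i) (hy : IsSk ω y) :
    Even (Finset.univ.filter (fun i => Odd (a i))).card := by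
  have h1 : LinearMap.trace K V y = ((∑ i, a i : ℤ) : K) := by
    rw [LinearMap.trace_eq_matrix_trace K v, Matrix.trace, Int.cast_sum]
    refine Finset.sum_congr rfl fun i _ => ?_
    rw [Matrix.diag_apply, LinearMap.toMatrix_apply, ha, map_smul, v.repr_self]
    simp
  rw [trace_eq_zero_of_sk hω hy] at h1
  have h2 : ∑ i, a i = 0 := by
    have : ((0 : ℤ) : K) = ((∑ i, a i : ℤ) : K) := by rw [← h1]; simp
    exact (Int.cast_injective this).symm
  have h3 : ∀ i, ∃ t : ℤ, a i = (if Odd (a i) then 1 else 0) + 2 * t := by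
    intro i
    split_ifs with h
    · obtain ⟨k, hk⟩ := h
      exact ⟨k, by omega⟩
    · rw [Int.not_odd_iff_even] at h
      obtain ⟨k, hk⟩ := h
      exact ⟨k, by omega⟩
  choose t ht using h3
  have h4 : ∑ i, a i = ((Finset.univ.filter (fun i => Odd (a i))).card : ℤ) + 2 * ∑ i, t i := by
    rw [Finset.sum_congr rfl fun i _ => ht i, Finset.sum_add_distrib, ← Finset.mul_sum,
      Finset.sum_boole]
  rw [h2] at h4
  have h5 : ((Finset.univ.filter (fun i => Odd (a i))).card : ℤ) = 2 * (-∑ i, t i) := by linarith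
  have h6 : Even ((Finset.univ.filter (fun i => Odd (a i))).card : ℤ) := by
    rw [h5]; exact even_two_mul _
  exact_mod_cast h6

open Classical in
/-- **The classification, Lie algebra form.** -/
theorem full_of_basis [CharZero K] [IsAlgClosed K] {L : Submodule K (Module.End K V)}
    {S : Set (Module.End K V)} (hC : Ctx ω L S) (halt : ω.IsAlt) {I : Type*} [Fintype I]
    (v : Basis I K V) (a : I → ℤ) {y : Module.End K V} (hy : y ∈ L)
    (ha : ∀ i, y (v i) = (a i : K) • v i) {n : ℕ}
    (hn : (Finset.univ.filter (fun i => Odd (a i))).card = n) (hpos : 0 < finrank K V)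
    (hcl : ¬ (4 ∣ finrank K V ∧ 8 ≤ finrank K V ∧ n ≤ finrank K V ∧
      (4 ∣ n ∨ 2 * n = finrank K V)))
    {z : Module.End K V} (hz : IsSk ω z) : z ∈ L := by
  have hV : Nontrivial V := finrank_pos_iff.mp hpos
  obtain ⟨s, hs⟩ := exists_inv hC halt
  obtain ⟨hsL, hss⟩ := hC.inv s hs
  have hev := even_dim hC.nd hss (hC.irr.sk s hsL)
  have hne := even_card hC.nd v a ha (hC.irr.sk y hy)
  rw [hn] at hne
  have hle : n ≤ finrank K V := by
    rw [← hn, finrank_eq_card_basis v]
    exact Finset.card_le_univ _
  have hnodd : nodd y = n := by rw [← hn]; exact nodd_eq_card v y a ha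
  have hdiag : ⨆ n : ℤ, y.eigenspace (n : K) = ⊤ := by
    rw [eq_top_iff, ← v.span_eq, Submodule.span_le]
    rintro _ ⟨i, rfl⟩
    exact Submodule.mem_iSup_of_mem (a i) (Module.End.mem_eigenspace_iff.mpr (ha i))
  obtain ⟨k, hk⟩ := hev
  obtain ⟨l, hl⟩ := hne
  by_cases h1 : finrank K V % 4 = 2
  · exact eq_sp_sub hC halt hsL (diag_inv hss) (by rw [nodd_inv hss]; exact h1)
      (by rw [nodd_inv hss]; omega) hz
  by_cases h2 : finrank K V = 4
  · obtain ⟨x, hx, hx0, hxx⟩ := exists_sq_zero hC hs
    have h3 := rk_le_half hxx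
    have h4 : 0 < rk x := rk_pos.mpr hx0
    apply hC.eq_sp halt hx hxx _ hz
    have h5 : rk x = 1 ∨ rk x = 2 := by omega
    rcases h5 with h5 | h5
    · left; rw [h5]; exact odd_one
    · right; exact h5
  · have h3 : 4 ∣ finrank K V := by omega
    have h4 : 8 ≤ finrank K V := by omega
    have h5 : ¬ (4 ∣ n ∨ 2 * n = finrank K V) := fun h => hcl ⟨h3, h4, hle, h⟩
    rw [not_or] at h5
    apply eq_sp_sub hC halt hy hdiag _ _ hz
    · rw [hnodd]; omega
    · rw [hnodd]; exact h5.2

end MTP.MF
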