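import Pool.Agent.Helper21.MT.Defs

/-!
The number of odd slopes of an element of a group of similitudes on a stable subspace.
-/

open Module

namespace MTPairs

variable {K : Type*} [Field K] {m : Type*} [Fintype m] [DecidableEq m]

/-- The function `v` turns products of nonzero elements into sums. -/
def IsAdditive (v : K → ℚ) : Prop := ∀ x y, x ≠ 0 → y ≠ 0 → v (x * y) = v x + v y

open Classical in
/-- The element `γ` is a similitude with some multiplier `c`; it acts on the subspace `U` by the
operator `f`; there is a rational number `d ≠ 0` such that every eigenvalue `α` of `f` satisfies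
`v α = v c / 2 + k d` for an integer `k`; and `n` is the number of eigenvalues of `f`, counted
with algebraic multiplicity, for which the integer `k` is odd. -/
def HasOddSlopes (J : Matrix m m K) (v : K → ℚ) (γ : Matrix.GeneralLinearGroup m K)
    (U : Submodule K (m → K)) (n : ℕ) : Prop :=
  ∃ (c : K) (d : ℚ) (f : Module.End K U),
    (γ : Matrix m m K).transpose * J * (γ : Matrix m m K) = c • J ∧ d ≠ 0 ∧
    (∀ u : U, (f u : m → K) = (γ : Matrix m m K).mulVec u) ∧
    (∀ α ∈ f.charpoly.roots, ∃ k : ℤ, v α = v c / 2 + k * d) ∧
    (f.charpoly.roots.filter fun α => ∃ k : ℤ, Odd k ∧ v α = v c / 2 + k * d).card = n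

end MTPairs
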