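import Pool.Agent.Helper88.MT.Weights

/-!
Symmetry and connectedness of the weights.
-/

open Module LieModule LieAlgebra LieAlgebra.IsKilling

namespace MTP.MF

section D

variable {K : Type*} [Field K] [CharZero K] [IsAlgClosed K]
  {L : Type*} [LieRing L] [LieAlgebra K L] [FiniteDimensional K L] [IsKilling K L]
  {H : LieSubalgebra K L} [H.IsCartanSubalgebra]
  {V : Type*} [AddCommGroup V] [Module K V] [FiniteDimensional K V]
  [LieRingModule L V] [LieModule K L V]

namespace WB

variable {I J : Type*} [Fintype I] [Fintype J] (B : WB (V := V) H I)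

omit [CharZero K] [IsAlgClosed K] [FiniteDimensional K L] [IsKilling K L]
  [H.IsCartanSubalgebra] [FiniteDimensional K V] in
/-- Sums over the weights do not depend on the basis. -/
lemma sum_eq (B' : WB (V := V) H J) (φ : Dual K H → K) :
    ∑ i, φ (B.w i) = ∑ j, φ (B'.w j) := by
  classical
  let Φ : V →ₗ[K] V := B.v.constr K (fun i => φ (B.w i) • B.v i)
  have h1 : ∀ i, Φ (B.v i) = φ (B.w i) • B.v i := fun i => B.v.constr_basis K _ i
  have h2 : ∀ j, Φ (B'.v j) = φ (B'.w j) • B'.v j := by
    intro j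
    have e : B'.v j = ∑ i, B.v.repr (B'.v j) i • B.v i := (B.v.sum_repr _).symm
    conv_lhs => rw [e]
    rw [map_sum]
    conv_rhs => rw [e]
    rw [Finset.smul_sum]
    refine Finset.sum_congr rfl fun i _ => ?_
    rw [map_smul, h1, smul_smul, smul_smul]
    by_cases hc : B.v.repr (B'.v j) i = 0
    · rw [hc, zero_mul, mul_zero]
    · have : B.w i = B'.w j := by
        ext h
        exact B.coord (B'.lie_v j h) hc
      rw [this, mul_comm]
  have h3 : LinearMap.trace K V Φ = ∑ i, φ (B.w i) := by
    rw [LinearMap.trace_eq_matrix_trace K B.v, Matrix.trace]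
    refine Finset.sum_congr rfl fun i _ => ?_
    rw [Matrix.diag_apply, LinearMap.toMatrix_apply, h1, map_smul, B.v.repr_self]
    simp
  have h4 : LinearMap.trace K V Φ = ∑ j, φ (B'.w j) := by
    rw [LinearMap.trace_eq_matrix_trace K B'.v, Matrix.trace]
    refine Finset.sum_congr rfl fun i _ => ?_
    rw [Matrix.diag_apply, LinearMap.toMatrix_apply, h2, map_smul, B'.v.repr_self]
    simp
  rw [← h3, h4]

variable {ω : LinearMap.BilinForm K V}

omit [CharZero K] [IsAlgClosed K] [FiniteDimensional K L] [IsKilling K L]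
  [H.IsCartanSubalgebra] in
lemma dual_lie [DecidableEq I] (hnd : ω.Nondegenerate)
    (hsk : ∀ (x : L) (u v : V), ω ⁅x, u⁆ v = - ω u ⁅x, v⁆) (i : I) (h : H) :
    ⁅(h : L), ω.dualBasis hnd B.v i⁆ = (- B.w i) h • ω.dualBasis hnd B.v i := by
  rw [← sub_eq_zero]
  have key : ∀ v, ω (⁅(h : L), ω.dualBasis hnd B.v i⁆ - (- B.w i) h • ω.dualBasis hnd B.v i) v
      = 0 := by
    intro v
    have h1 : ω (⁅(h : L), ω.dualBasis hnd B.v i⁆ - (- B.w i) h • ω.dualBasis hnd B.v i) = 0 := by
      refine B.v.ext fun j => ?_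
      rw [map_sub, map_smul, LinearMap.sub_apply, LinearMap.smul_apply, hsk, B.lie_v, map_smul,
        LinearMap.BilinForm.apply_dualBasis_left, LinearMap.zero_apply]
      by_cases hij : j = i
      · subst hij; simp
      · simp [hij]
    rw [h1]; rfl
  exact hnd.1 _ key

/-- The dual basis. -/
noncomputable def dual [DecidableEq I] (hnd : ω.Nondegenerate)
    (hsk : ∀ (x : L) (u v : V), ω ⁅x, u⁆ v = - ω u ⁅x, v⁆) : WB (V := V) H I where
  v := ω.dualBasis hnd B.v
  w := fun i => - B.w i
  lie_v := B.dual_lie hnd hsk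

omit [CharZero K] [IsAlgClosed K] [FiniteDimensional K L] [IsKilling K L]
  [H.IsCartanSubalgebra] in
lemma sum_symm (hnd : ω.Nondegenerate)
    (hsk : ∀ (x : L) (u v : V), ω ⁅x, u⁆ v = - ω u ⁅x, v⁆) (φ : Dual K H → K) :
    ∑ i, φ (B.w i) = ∑ i, φ (- B.w i) := by
  classical
  exact B.sum_eq (B.dual hnd hsk) φ

/-- Connectedness of the weights of an irreducible module. -/
lemma conn (hirr : ∀ W : Submodule K V, (∀ x : L, ∀ u ∈ W, ⁅x, u⁆ ∈ W) → W = ⊥ ∨ W = ⊤)
    (S : Set I) (hne : S.Nonempty)
    (hcl : ∀ (α : H.root) (i j : I), i ∈ S → (∀ h : H, B.w j h = α.1 h + B.w i h) → j ∈ S) :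
    ∀ j, j ∈ S := by
  classical
  let W : Submodule K V :=
    { carrier := {u | ∀ j, j ∉ S → B.v.repr u j = 0}
      add_mem' := by
        intro a b ha hb j hj
        rw [map_add, Finsupp.add_apply, ha j hj, hb j hj, add_zero]
      zero_mem' := by intro j _; simp
      smul_mem' := by
        intro c a ha j hj
        rw [map_smul, Finsupp.smul_apply, ha j hj, smul_zero] }
  have hv : ∀ i ∈ S, B.v i ∈ W := by
    intro i hi j hj
    rw [B.v.repr_self, Finsupp.single_apply, if_neg]
    rintro rfl
    exact hj hi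
  have hW : ∀ x : L, ∀ u ∈ W, ⁅x, u⁆ ∈ W := by
    intro x u hu
    have e : u = ∑ i, B.v.repr u i • B.v i := (B.v.sum_repr _).symm
    rw [e, lie_sum]
    refine Submodule.sum_mem _ fun i _ => ?_
    rw [lie_smul]
    by_cases hi : i ∈ S
    · refine Submodule.smul_mem _ _ ?_
      let U : Submodule K L :=
        { carrier := {x | ⁅x, B.v i⁆ ∈ W}
          add_mem' := by
            intro a b ha hb
            simp only [Set.mem_ofPred_eq, add_lie] at *
            exact add_mem ha hb
          zero_mem' := by simp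
          smul_mem' := by
            intro c a ha
            simp only [Set.mem_ofPred_eq, smul_lie] at *
            exact Submodule.smul_mem _ _ ha }
      refine root_induction (U := U) (H := H) ?_ x
      intro α z hz
      by_cases hα : α.IsZero
      · have hzH : z ∈ H := by
          rw [hα.eq] at hz
          rwa [rootSpace_zero_eq, LieSubalgebra.mem_toLieSubmodule] at hz
        have h1 : ⁅z, B.v i⁆ = B.w i ⟨z, hzH⟩ • B.v i := B.lie_v i ⟨z, hzH⟩
        change ⁅z, B.v i⁆ ∈ W
        rw [h1]
        exact Submodule.smul_mem _ _ (hv i hi)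
      · have hα' : α ∈ H.root := by simpa [LieSubalgebra.root] using hα
        intro j hj
        by_contra hc
        exact hj (hcl ⟨α, hα'⟩ i j hi (fun h => B.coord_root (α := ⟨α, hα'⟩) hz hc h))
    · rw [hu i hi, zero_smul]
      exact zero_mem _
  obtain ⟨i, hi⟩ := hne
  rcases hirr W hW with h | h
  · exfalso
    have h1 := hv i hi
    rw [h, Submodule.mem_bot] at h1
    exact B.v.ne_zero i h1
  · intro j
    by_contra hj
    have h1 : B.v j ∈ W := by rw [h]; trivial
    have h2 := h1 j hj
    rw [B.v.repr_self, Finsupp.single_eq_same] at h2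
    exact one_ne_zero h2

end WB

end D

end MTP.MF
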