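import Pool.Agent.Helper88.MT.Slope2
import Pool.Agent.Helper88.MT.SlopeDefs

/-!
The if part of the classification, for products of irreducible representations.
-/

open Module MTPairs

namespace MTP.MF

variable {K : Type*} [Field K] {m : Type*} [Fintype m] [DecidableEq m]
  {ι : Type*} [Fintype ι] [DecidableEq ι] {W : ι → Submodule K (m → K)}
  {J : Matrix m m K} {G : Subgroup (Matrix.GeneralLinearGroup m K)}

/-- **The classification, if part.** -/
theorem isFull_of_odd_slopes [IsAlgClosed K] [CharZero K] (hG : IsMTPair J G)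
    (hW : IsSplit J G W)
    (hn : ∀ j, ∃ γ ∈ G, ∃ v : K → ℚ, IsAdditive v ∧ ∃ n : ℕ, HasOddSlopes J v γ (W j) n ∧
      W j ≠ ⊥ ∧ ¬ (4 ∣ finrank K (W j) ∧ 8 ≤ finrank K (W j) ∧ n ≤ finrank K (W j) ∧
        (4 ∣ n ∨ 2 * n = finrank K (W j)))) :
    IsFull J G W := by
  classical
  have h := hW.internal
  have hnt : ∀ j, W j ≠ ⊥ := by
    intro j
    obtain ⟨γ, hγ, v, -, n, -, h0, -⟩ := hn j
    exact h0
  have hnt' : ∀ j, Nontrivial (W j) := fun j => (Submodule.nontrivial_iff_ne_bot).mpr (hnt j)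
  refine isFull_of_proj hG hW hnt ?_ (fun L h1 h2 h3 h4 =>
    goursat hnt' (form J W) (form_nd hG.skew hG.det hW.internal hW.orth)
      (form_alt hG.skew) L h1 h2 h3 h4)
  intro j z hz
  obtain ⟨n, ⟨b⟩⟩ := exists_basis (W := W)
  have D := grpBase b hG hW hnt
  obtain ⟨γ, hγ, v, hv, n, ⟨c, d, f, hc, hd, hf, hint, hcard⟩, -, hcl⟩ := hn j
  obtain ⟨a, ha⟩ := exists_mat h (hW.stable γ hγ)
  have hfa : f = a j := by
    apply LinearMap.ext
    intro u
    apply Subtype.ext
    rw [hf, ha, mat_mulVec]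
  rw [hfa] at hint hcard
  exact proj_of_slopes D j (g := a) ⟨γ, hγ, ha⟩ (c := c) (v := v) (d := d)
    (fun u w => sim_form h ha hc j u w) hv hd hint hcard
    (finrank_pos_iff.mpr (hnt' j)) hcl hz

end MTP.MF
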