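import Pool.Agent.Helper88.MT.Top
import Pool.Agent.Helper21.MT.Rank

/-!
A long root vector of square zero.
-/

open Module LieModule LieAlgebra LieAlgebra.IsKilling

namespace MTP.MF

section alg

variable {K : Type*} [Field K] [CharZero K] {V : Type*} [AddCommGroup V] [Module K V]

/-- A nilpotent extremal element attached to an involution has square zero. -/
lemma sq_zero_of_extremal {e s : Module.End K V} (hnil : IsNilpotent e) (hs : s * s = 1)
    {c : K} (hc : c ≠ 0) (h : e * (e * s - s * e) - (e * s - s * e) * e = c • e) :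
    e * e = 0 := by
  classical
  set u := e * s - s * e with hu
  have hform : ∀ k : ℕ, e ^ (k + 1) * s = s * e ^ (k + 1) + ((k : K) + 1) • (u * e ^ k) +
      (((k : K) + 1) * k / 2 * c) • e ^ k := by
    intro k
    induction k with
    | zero => simp [hu]
    | succ k ih =>
      have e1 : e ^ (k + 1 + 1) * s = e * (e ^ (k + 1) * s) := by
        rw [pow_succ' e (k + 1), mul_assoc]
      have e2 : e * s = s * e + u := by rw [hu]; abel
      have e3 : e * u = u * e + c • e := by rw [← h]; abel
      rw [e1, ih]
      simp only [mul_add, mul_smul_comm]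
      rw [← mul_assoc e s, e2, ← mul_assoc e u, e3, add_mul, add_mul, mul_assoc s e, ← pow_succ',
        mul_assoc u e, ← pow_succ', smul_mul_assoc, ← pow_succ']
      push_cast
      module
  by_contra hsq
  -- the nilpotency index
  have hex : ∃ n, e ^ (n + 1) = 0 := by
    obtain ⟨n, hn⟩ := hnil
    exact ⟨n, by rw [pow_succ, hn, zero_mul]⟩
  obtain ⟨n, hn, hmin⟩ : ∃ n, e ^ (n + 1) = 0 ∧ e ^ n ≠ 0 := by
    refine ⟨Nat.find hex, Nat.find_spec hex, ?_⟩
    intro h0
    cases hk : Nat.find hex with
    | zero =>
      rw [hk, pow_zero] at h0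
      apply hsq
      calc e * e = 1 * (e * e) := by rw [one_mul]
        _ = 0 := by rw [h0, zero_mul]
    | succ m =>
      rw [hk] at h0
      have := Nat.find_min hex (m := m) (by omega)
      exact this h0
  have hn2 : 2 ≤ n := by
    rcases Nat.lt_or_ge n 2 with h2 | h2
    · exfalso
      apply hsq
      have : e ^ 2 = 0 := by
        have : e ^ (n + 1) * e ^ (1 - n) = e ^ 2 := by
          rw [← pow_add]; congr 1; omega
        rw [← this, hn, zero_mul]
      rwa [pow_two] at this
    · exact h2
  have hnK : (n : K) + 1 ≠ 0 := by exact_mod_cast Nat.succ_ne_zero n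
  have hue : u * e ^ n = (-(n : K) / 2 * c) • e ^ n := by
    have h1 := hform n
    rw [hn, zero_mul, mul_zero, zero_add] at h1
    have h2 : ((n : K) + 1) • (u * e ^ n - (-(n : K) / 2 * c) • e ^ n) = 0 := by
      rw [smul_sub, smul_smul]
      rw [eq_comm] at h1
      rw [← h1]
      module
    exact sub_eq_zero.mp ((smul_eq_zero.mp h2).resolve_left hnK)
  obtain ⟨v, hv⟩ : ∃ v, (e ^ n) v ≠ 0 := by
    by_contra! hcon
    exact hmin (LinearMap.ext hcon)
  set w := (e ^ n) v with hw
  have hew : e w = 0 := by
    have : (e ^ (n + 1)) v = 0 := by rw [hn]; rfl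
    rwa [pow_succ', Module.End.mul_apply] at this
  have huw : u w = (-(n : K) / 2 * c) • w := LinearMap.congr_fun hue v
  have hss : ∀ x, s (s x) = x := fun x => LinearMap.congr_fun hs x
  have huv : ∀ x, u x = e (s x) - s (e x) := fun x => rfl
  have hesw : e (s w) = (-(n : K) / 2 * c) • w := by
    have := huv w
    rw [hew, map_zero, sub_zero] at this
    rw [← this, huw]
  have husw : u (s w) = -((-(n : K) / 2 * c) • s w) := by
    rw [huv, hss, hew, hesw, map_smul, zero_sub]
  have hfin := LinearMap.congr_fun h (s w)
  simp only [LinearMap.sub_apply, Module.End.mul_apply, LinearMap.smul_apply] at hfin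
  rw [husw, hesw, map_neg, map_smul, map_smul, hesw, huw] at hfin
  have h3 : (c * c * ((n : K) * (1 - n)) / 2) • w = 0 := by
    have e5 : (c * c * ((n : K) * (1 - n)) / 2) • w =
      (-((-(n : K) / 2 * c) • (-(n : K) / 2 * c) • w) -
        (-(n : K) / 2 * c) • (-(n : K) / 2 * c) • w) - c • (-(n : K) / 2 * c) • w := by
      match_scalars
      ring
    rw [e5, hfin, sub_self]
  have h4 := (smul_eq_zero.mp h3).resolve_right hv
  have h5 : (n : K) ≠ 0 := by
    have : n ≠ 0 := by omega
    exact_mod_cast this
  have h6 : (1 : K) - n ≠ 0 := by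
    intro h6
    have : (1 : K) = n := sub_eq_zero.mp h6
    have : (1 : ℕ) = n := by exact_mod_cast this
    omega
  have h7 : c * c * ((n : K) * (1 - n)) / 2 ≠ 0 :=
    div_ne_zero (mul_ne_zero (mul_ne_zero hc hc) (mul_ne_zero h5 h6)) two_ne_zero
  exact h7 h4

/-- Trace of a product in a triple with square zero element. -/
lemma trace_ef [FiniteDimensional K V] {e f h : Module.End K V} (he : e * e = 0)
    (hef : e * f - f * e = h) (hhe : h * e - e * h = (2 : K) • e) :
    LinearMap.trace K V (e * f) = (rk e : K) := by
  have h1 : e * f * e = e := by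
    have h2 : h * e - e * h = (2 : K) • (e * f * e) := by
      rw [← hef]
      have : (e * f - f * e) * e - e * (e * f - f * e) = e * f * e + e * f * e - f * (e * e)
        - (e * e) * f := by noncomm_ring
      rw [this, he, mul_zero, zero_mul, sub_zero, sub_zero, two_smul]
    rw [h2] at hhe
    have h3 : (2 : K) • (e * f * e - e) = 0 := by rw [smul_sub, hhe, sub_self]
    exact sub_eq_zero.mp ((smul_eq_zero.mp h3).resolve_left two_ne_zero)
  have hid : IsIdempotentElem (e * f) := by
    rw [IsIdempotentElem, ← mul_assoc, h1]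
  have h2 : LinearMap.trace K V (e * f) = (finrank K (LinearMap.range (e * f)) : K) :=
    (LinearMap.IsIdempotentElem.isProj_range _ hid).trace
  rw [h2]
  congr 1
  apply le_antisymm
  · exact rk_mul_le_left e f
  · have : rk (e * f * e) ≤ rk (e * f) := rk_mul_le_left _ _
    rwa [h1] at this

end alg

end MTP.MF
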