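import Mathlib

/-!
The root system part of the mod four theorem.
-/

open Module

namespace MTP.MF

section RootPart

variable {ι K M N : Type*} [Field K] [AddCommGroup M] [Module K M]
  [AddCommGroup N] [Module K N] (P : RootPairing ι K M N)

/-- Two invariant forms on an irreducible coweight space are proportional. -/
lemma proportional [IsAlgClosed K] [FiniteDimensional K N] [P.IsIrreducible]
    (T S : LinearMap.BilinForm K N) (hT0 : T ≠ 0)
    (hT : ∀ i x y, T (P.coreflection i x) (P.coreflection i y) = T x y)
    (hS : ∀ i x y, S (P.coreflection i x) (P.coreflection i y) = S x y) :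
    ∃ c : K, S = c • T := by
  have : Nontrivial N := RootPairing.IsIrreducible.nontrivial' P
  -- kernels of invariant forms are invariant
  have key : ∀ B : LinearMap.BilinForm K N,
      (∀ i x y, B (P.coreflection i x) (P.coreflection i y) = B x y) →
      LinearMap.ker B ≠ ⊥ → B = 0 := by
    intro B hB hne
    have h1 := RootPairing.IsIrreducible.eq_top_of_invtSubmodule_coreflection (P := P)
      (LinearMap.ker B) (by
        intro i
        rw [Module.End.mem_invtSubmodule]
        intro x hx
        rw [Submodule.mem_comap, LinearMap.mem_ker] at *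
        ext z
        have h2 := hB i x (P.coreflection i z)
        rw [P.coreflection_same, hx] at h2
        simpa using h2) hne
    exact LinearMap.ker_eq_top.mp h1
  have hTinj : Function.Injective T := by
    rw [← LinearMap.ker_eq_bot]
    by_contra h
    exact hT0 (key T hT h)
  let e : N ≃ₗ[K] Dual K N := LinearEquiv.ofInjectiveOfFinrankEq T hTinj
    Subspace.dual_finrank_eq.symm
  have he : ∀ x, e x = T x := fun x => rfl
  obtain ⟨c, hc⟩ := Module.End.exists_eigenvalue (e.symm.toLinearMap ∘ₗ S)
  obtain ⟨x, hx⟩ := hc.exists_hasEigenvector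
  refine ⟨c, ?_⟩
  have hx0 : S x = c • T x := by
    have h1 := hx.apply_eq_smul
    have h2 : e (e.symm (S x)) = e (c • x) := congrArg e h1
    rwa [LinearEquiv.apply_symm_apply, map_smul, he] at h2
  have h3 := key (S - c • T) (by
    intro i x y
    simp only [LinearMap.sub_apply, LinearMap.smul_apply, hT, hS]) (by
    intro h
    have h4 : x ∈ LinearMap.ker (S - c • T) := by
      rw [LinearMap.mem_ker, LinearMap.sub_apply, LinearMap.smul_apply, hx0, sub_self]
    rw [h, Submodule.mem_bot] at h4
    exact hx.2 h4)
  exact sub_eq_zero.mp h3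

variable {P} [CharZero K] (b : P.Base) [Fintype ι]

open Classical in
/-- The sum of the positive coroots. -/
noncomputable def rho2 : N := ∑ i with b.IsPos i, P.coroot i

lemma root_rho2 [P.IsCrystallographic] [P.IsReduced] {j : ι} (hj : j ∈ b.support) :
    P.root' j (rho2 b) = 2 := by
  classical
  have hjpos : b.IsPos j := RootPairing.Base.isPos_of_mem_support hj
  have h1 : P.coreflection j (rho2 b) = rho2 b - (2 : K) • P.coroot j := by
    have h2 : rho2 b = P.coroot j + ∑ i ∈ (Finset.univ.filter b.IsPos).erase j, P.coroot i := by
      rw [rho2]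
      exact (Finset.add_sum_erase _ _ (by simp [hjpos])).symm
    have h3 : P.coreflection j (∑ i ∈ (Finset.univ.filter b.IsPos).erase j, P.coroot i) =
        ∑ i ∈ (Finset.univ.filter b.IsPos).erase j, P.coroot i := by
      rw [map_sum]
      refine Finset.sum_bij' (fun i _ => P.reflectionPerm j i) (fun i _ => P.reflectionPerm j i)
        ?_ ?_ ?_ ?_ ?_
      · intro i hi
        simp only [Finset.mem_erase, Finset.mem_filter, Finset.mem_univ, true_and] at hi ⊢
        refine ⟨?_, hi.2.reflectionPerm hj hi.1⟩
        intro h
        have h4 : b.IsPos (P.reflectionPerm j j) := by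
          have h5 := hi.2
          rwa [← P.reflectionPerm_self j i, h] at h5
        let _ := P.indexNeg
        have h6 := (RootPairing.Base.IsPos.neg_iff_not b j).mp h4
        exact h6 hjpos
      · intro i hi
        simp only [Finset.mem_erase, Finset.mem_filter, Finset.mem_univ, true_and] at hi ⊢
        refine ⟨?_, hi.2.reflectionPerm hj hi.1⟩
        intro h
        have h4 : b.IsPos (P.reflectionPerm j j) := by
          have h5 := hi.2
          rwa [← P.reflectionPerm_self j i, h] at h5
        let _ := P.indexNeg
        have h6 := (RootPairing.Base.IsPos.neg_iff_not b j).mp h4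
        exact h6 hjpos
      · intro i _; exact P.reflectionPerm_self j i
      · intro i _; exact P.reflectionPerm_self j i
      · intro i _; exact (P.coroot_reflectionPerm j i).symm
    rw [h2, map_add, h3, P.coreflection_apply_self]
    module
  rw [P.coreflection_apply] at h1
  have h2 : (P.root' j (rho2 b)) • P.coroot j = (2 : K) • P.coroot j := by
    have := sub_right_injective h1
    exact this
  have h3 : P.coroot j ≠ 0 := P.flip.ne_zero j
  exact smul_left_injective K h3 h2

/-- The value of a root on the sum of the positive coroots is twice its height. -/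
lemma root_rho2_height [P.IsCrystallographic] [P.IsReduced] (i : ι) :
    P.root' i (rho2 b) = 2 * (b.height i : K) := by
  obtain ⟨f, _, _, hf⟩ := b.exists_root_eq_sum_int i
  rw [RootPairing.Base.height_eq_sum hf]
  have h1 : P.root' i (rho2 b) = ∑ j ∈ b.support, (f j : K) * P.root' j (rho2 b) := by
    simp only [RootPairing.root', hf, map_sum, LinearMap.sum_apply, map_zsmul,
      LinearMap.smul_apply, zsmul_eq_mul]
  rw [h1, Int.cast_sum, Finset.mul_sum]
  refine Finset.sum_congr rfl fun j hj => ?_
  rw [root_rho2 b hj]
  ring

/-- A sum over all roots of an even function is twice the sum over the positive roots. -/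
lemma sum_even {A : Type*} [AddCommGroup A] (g : ι → A)
    (hg : ∀ i, g (P.reflectionPerm i i) = g i) :
    open Classical in ∑ i, g i = (2 : ℤ) • ∑ i with b.IsPos i, g i := by
  classical
  have hneg : ∀ i, P.reflectionPerm (P.reflectionPerm i i) (P.reflectionPerm i i) = i := by
    intro i
    let _ := P.indexNeg
    exact neg_neg i
  have hiff : ∀ i, b.IsPos (P.reflectionPerm i i) ↔ ¬ b.IsPos i := fun i =>
    RootPairing.Base.IsPos.neg_iff_not b i
  have h1 : ∑ i with ¬ b.IsPos i, g i = ∑ i with b.IsPos i, g i := by
    refine Finset.sum_bij' (fun i _ => P.reflectionPerm i i) (fun i _ => P.reflectionPerm i i)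
      ?_ ?_ ?_ ?_ ?_
    · intro i hi
      simp only [Finset.mem_filter, Finset.mem_univ, true_and] at hi ⊢
      exact (hiff i).mpr hi
    · intro i hi
      simp only [Finset.mem_filter, Finset.mem_univ, true_and] at hi ⊢
      intro h
      exact ((hiff i).mp h) hi
    · intro i _; exact hneg i
    · intro i _; exact hneg i
    · intro i _; exact (hg i).symm
  rw [← Finset.sum_filter_add_sum_filter_not Finset.univ b.IsPos, h1, two_smul]

/-- **The key parity lemma.** -/
theorem root_key [IsAlgClosed K] [FiniteDimensional K N] [P.IsIrreducible]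
    [P.IsCrystallographic] [P.IsReduced]
    (T : LinearMap.BilinForm K N) (hT0 : T ≠ 0)
    (hTi : ∀ i x y, T (P.coreflection i x) (P.coreflection i y) = T x y)
    (k : ι → ℤ) (hk : ∀ i, T (P.coroot i) (P.coroot i) = 4 * (k i : K))
    (y : N) (a : ι → ℤ) (ha : ∀ i, P.root' i y = (a i : K))
    (f n : ℤ) (hf : T y y = 2 * (f : K)) (hn : T y (rho2 b) = 2 * (n : K))
    (hfn : Even (n - f)) : Even f := by
  classical
  have hTc : ∀ i, T y (P.coroot i) = 2 * (k i : K) * (a i : K) := by
    intro i
    have h1 := hTi i y (P.coroot i)
    rw [P.coreflection_apply_self, P.coreflection_apply, ha] at h1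
    simp only [map_sub, map_neg, map_smul, LinearMap.sub_apply, LinearMap.smul_apply,
      smul_eq_mul, hk] at h1
    linear_combination (-1 / 2 : K) * h1
  have hkr : ∀ i j, k (P.reflectionPerm j i) = k i := by
    intro i j
    have h1 := hk (P.reflectionPerm j i)
    rw [P.coroot_reflectionPerm, hTi, hk] at h1
    have h2 : ((k i : ℤ) : K) = (k (P.reflectionPerm j i) : K) := by
      have h4 : (4 : K) ≠ 0 := by norm_num
      exact mul_left_cancel₀ h4 h1
    exact (Int.cast_injective h2).symm
  have hroot : ∀ i j x, P.root' (P.reflectionPerm j i) x = P.root' i (P.coreflection j x) := by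
    intro i j x
    have h1 := P.flip.coroot'_reflectionPerm (i := j) (j := i)
    exact LinearMap.congr_fun h1 x
  have ham : ∀ i, a (P.reflectionPerm i i) = - a i := by
    intro i
    have h1 := ha (P.reflectionPerm i i)
    rw [RootPairing.root', P.root_reflectionPerm, P.reflection_apply_self] at h1
    have h2 : P.toLinearMap (-P.root i) y = - P.root' i y := by
      rw [map_neg]; rfl
    rw [h2, ha] at h1
    have h3 : ((a (P.reflectionPerm i i) : ℤ) : K) = ((- a i : ℤ) : K) := by
      rw [← h1, Int.cast_neg]
    exact Int.cast_injective h3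
  have hhm : ∀ i, b.height (P.reflectionPerm i i) = - b.height i := fun i =>
    b.height_reflectionPerm_self i
  -- the number `n`
  have hn' : n = ∑ i with b.IsPos i, k i * a i := by
    have h1 : T y (rho2 b) = 2 * ((∑ i with b.IsPos i, k i * a i : ℤ) : K) := by
      rw [rho2, map_sum, Int.cast_sum, Finset.mul_sum]
      refine Finset.sum_congr rfl fun i _ => ?_
      rw [hTc]; push_cast; ring
    rw [hn] at h1
    exact Int.cast_injective (mul_left_cancel₀ (two_ne_zero) h1)
  -- the second form
  let S : LinearMap.BilinForm K N := ∑ i, (k i : K) • (P.root' i).smulRight (P.root' i)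
  have hS : ∀ x z, S x z = ∑ i, (k i : K) * (P.root' i x * P.root' i z) := by
    intro x z
    simp only [S, LinearMap.sum_apply, LinearMap.smul_apply, LinearMap.smulRight_apply,
      smul_eq_mul]
  have hSi : ∀ i x y, S (P.coreflection i x) (P.coreflection i y) = S x y := by
    intro j x z
    rw [hS, hS]
    refine Fintype.sum_equiv (P.reflectionPerm j) _ _ fun i => ?_
    rw [hkr, hroot, hroot]
  obtain ⟨c, hc⟩ := proportional P T S hT0 hTi hSi
  have e1 : S y y = 2 * ((∑ i with b.IsPos i, k i * a i ^ 2 : ℤ) : K) := by
    have h1 : S y y = ((∑ i, k i * a i ^ 2 : ℤ) : K) := by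
      rw [hS, Int.cast_sum]
      refine Finset.sum_congr rfl fun i _ => ?_
      rw [ha]; push_cast; ring
    rw [h1, sum_even b (fun i => k i * a i ^ 2) (by intro i; simp only [hkr, ham, neg_sq])]
    push_cast
    simp
  have e2 : S y (rho2 b) = 4 * ((∑ i with b.IsPos i, k i * a i * b.height i : ℤ) : K) := by
    have h1 : S y (rho2 b) = 2 * ((∑ i, k i * a i * b.height i : ℤ) : K) := by
      rw [hS, Int.cast_sum, Finset.mul_sum]
      refine Finset.sum_congr rfl fun i _ => ?_
      rw [ha, root_rho2_height]; push_cast; ring
    rw [h1, sum_even b (fun i => k i * a i * b.height i)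
      (by intro i; simp only [hkr, ham, hhm]; ring)]
    push_cast
    simp only [zsmul_eq_mul]
    push_cast
    ring
  have e3 : S y y = c * T y y := by rw [hc]; rfl
  have e4 : S y (rho2 b) = c * T y (rho2 b) := by rw [hc]; rfl
  set m := ∑ i with b.IsPos i, k i * a i ^ 2 with hm
  set q := ∑ i with b.IsPos i, k i * a i * b.height i with hq
  have e5 : m * n = 2 * f * q := by
    have h1 : (4 : K) * ((m * n : ℤ) : K) = 4 * ((2 * f * q : ℤ) : K) := by
      rw [e1, hf] at e3
      rw [e2, hn] at e4
      push_cast
      linear_combination (2 * (n : K)) * e3 - (2 * (f : K)) * e4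
    have h4 : (4 : K) ≠ 0 := by norm_num
    exact Int.cast_injective (mul_left_cancel₀ h4 h1)
  have e6 : Even (m - n) := by
    rw [hn', hm, ← Finset.sum_sub_distrib]
    refine Finset.even_sum _ fun i _ => ?_
    have : k i * a i ^ 2 - k i * a i = k i * (a i * (a i - 1)) := by ring
    rw [this]
    exact (Int.even_mul_pred_self (a i)).mul_left _
  by_contra hodd
  rw [Int.not_even_iff_odd] at hodd
  have h1 : Odd n := by
    have : n = (n - f) + f := by ring
    rw [this]; exact hfn.add_odd hodd
  have h2 : Odd m := by
    have : m = (m - n) + n := by ring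
    rw [this]; exact e6.add_odd h1
  have h3 : Odd (m * n) := h2.mul h1
  rw [e5, mul_assoc] at h3
  exact (Int.not_even_iff_odd.mpr h3) (even_two_mul _)

end RootPart

end MTP.MF
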