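import Pool.Agent.Helper88.MT.Cases
import Pool.Agent.Helper98.MT.Slope
import Pool.Agent.Helper34.MT.NewtonGrp

/-!
From an element of the group and an additive valuation to an element of the Lie algebra with
integral eigenvalues.
-/

open Module

namespace MTP.MF

section one
variable {K : Type*} [Field K] {V : Type*} [AddCommGroup V] [Module K V] [FiniteDimensional K V]

/-- The slope operator, with an eigenbasis. -/
theorem exists_slope_basis [IsAlgClosed K] [CharZero K] {ω : LinearMap.BilinForm K V}
    {γ γ' : Module.End K V} (h' : γ' * γ = 1) {c : K}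
    (hc : ∀ u w, ω (γ u) (γ w) = c * ω u w) {v : K → ℚ}
    (hv : ∀ x y, x ≠ 0 → y ≠ 0 → v (x * y) = v x + v y)
    {L : Submodule K (Module.End K V)} (hL : ∀ x ∈ L, γ * x * γ' ∈ L) :
    ∃ (h : Module.End K V) (b : Basis (Fin (finrank K V)) K V) (lam : Fin (finrank K V) → K),
      IsSk ω h ∧ (∀ x ∈ L, h * x - x * h ∈ L) ∧
      γ.charpoly.roots = Finset.univ.val.map lam ∧
      ∀ i, h (b i) = ((v (lam i) - v c / 2 : ℚ) : K) • b i := by
  classical
  obtain ⟨b, lam, hb, hrep, hroots⟩ := exists_genbasis γ
  have hinj : Function.Injective γ := by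
    intro x y hxy
    have h1 := congrArg γ' hxy
    have h2 : ∀ x, γ' (γ x) = x := fun x => LinearMap.congr_fun h' x
    rwa [h2, h2] at h1
  have hlam : ∀ i, lam i ≠ 0 := by
    intro i h0
    have h1 := hb i
    rw [h0, Module.End.mem_maxGenEigenspace] at h1
    obtain ⟨k, hk⟩ := h1
    rw [zero_smul, sub_zero] at hk
    have h2 : Function.Injective (γ ^ k : Module.End K V) := by
      rw [Module.End.coe_pow]
      exact hinj.iterate k
    exact b.ne_zero i (h2 (by rw [hk, map_zero]))
  let χ : Fin (finrank K V) → ℚ := fun i => v (lam i) - v c / 2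
  let h := dg b χ
  have hχ : ∀ i, h (b i) = (χ i : K) • b i := dg_apply b χ
  have hent : ∀ μ, ∀ x ∈ Module.End.maxGenEigenspace (R := K) (M := Module.End K V)
      (LinearMap.mulLeft K γ ∘ₗ LinearMap.mulRight K γ') μ, ∀ i j, en b x i j ≠ 0 →
      lam i = μ * lam j := by
    intro μ x hx i j hij
    rw [Module.End.mem_maxGenEigenspace] at hx
    obtain ⟨a, ha⟩ := hx
    have h1 := hb j
    rw [Module.End.mem_maxGenEigenspace] at h1
    obtain ⟨k, hk⟩ := h1
    have h2 := shift_gen h' a k x (b j) ha hk
    apply hrep (μ * lam j) (x (b j))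
    · rw [Module.End.mem_maxGenEigenspace]
      exact ⟨_, h2⟩
    · rw [← en_eq]; exact hij
  refine ⟨h, b, lam, ?_, ?_, hroots, hχ⟩
  · have hB : ω.compLeft h = -(ω.compRight h) := by
      apply LinearMap.BilinForm.ext_basis b
      intro i j
      rw [LinearMap.BilinForm.compLeft_apply, LinearMap.BilinForm.neg_apply,
        LinearMap.BilinForm.compRight_apply, hχ, hχ, map_smul, map_smul, LinearMap.smul_apply,
        smul_eq_mul, smul_eq_mul]
      by_cases h0 : ω (b i) (b j) = 0
      · rw [h0]; ring
      · have h1 : lam i * lam j = c := by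
          by_contra hne
          exact h0 (orth_gen hc hne (hb i) (hb j))
        have h2 : v c = v (lam i) + v (lam j) := by rw [← h1]; exact hv _ _ (hlam i) (hlam j)
        have h3 : χ i = - χ j := by
          simp only [χ]; rw [h2]; ring
        rw [h3]; push_cast; ring
    intro u w
    have := congrArg (fun B : LinearMap.BilinForm K V => B u w) hB
    simpa [LinearMap.BilinForm.compLeft_apply, LinearMap.BilinForm.compRight_apply] using this
  · intro x hx
    set Ad : Module.End K (Module.End K V) := LinearMap.mulLeft K γ ∘ₗ LinearMap.mulRight K γ'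
      with hAd
    have hst : ∀ x ∈ L, Ad x ∈ L := by
      intro x hx
      have := hL x hx
      rwa [mul_assoc] at this
    have htop : ⨆ μ, Ad.genEigenspace μ ⊤ = ⊤ := Module.End.iSup_maxGenEigenspace_eq_top Ad
    have hdec := Submodule.eq_iSup_inf_genEigenspace (p := L) (f := Ad) ⊤ hst htop
    rw [hdec] at hx
    induction hx using Submodule.iSup_induction' with
    | mem μ y hy =>
      obtain ⟨hyL, hyμ⟩ := hy
      have h1 : h * y - y * h = ((v μ : ℚ) : K) • y := by
        apply hom_comm b hχ
        intro i j hij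
        have h2 := hent μ y hyμ i j hij
        have h3 : μ ≠ 0 := by
          rintro rfl
          rw [zero_mul] at h2
          exact hlam i h2
        simp only [χ]
        rw [h2, hv _ _ h3 (hlam j)]
        ring
      rw [h1]
      exact L.smul_mem _ hyL
    | zero => simp
    | add y z _ _ hy hz =>
      have : h * (y + z) - (y + z) * h = (h * y - y * h) + (h * z - z * h) := by noncomm_ring
      rw [this]
      exact L.add_mem hy hz

end one

section family
variable {K : Type*} [Field K] {ι : Type*} [Fintype ι] [DecidableEq ι] {W : ι → Type*}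
  [∀ j, AddCommGroup (W j)] [∀ j, Module K (W j)] [∀ j, FiniteDimensional K (W j)]
  {σ : Type*} [Fintype σ]
  {ω : ∀ j, LinearMap.BilinForm K (W j)} {b : Basis σ K (∀ j, Module.End K (W j))}
  {G : Set (∀ j, Module.End K (W j))}

open Classical in
/-- The projection of the Lie algebra to a factor, given the slopes of an element of the
group. -/
theorem proj_of_slopes [IsAlgClosed K] [CharZero K] (D : GrpBase ω b G) (j : ι)
    {g : ∀ j, Module.End K (W j)} (hg : g ∈ G) {c : K}
    (hc : ∀ u w, ω j (g j u) (g j w) = c * ω j u w) {v : K → ℚ}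
    (hv : ∀ x y, x ≠ 0 → y ≠ 0 → v (x * y) = v x + v y) {d : ℚ} (hd : d ≠ 0)
    (hint : ∀ α ∈ (g j).charpoly.roots, ∃ k : ℤ, v α = v c / 2 + k * d) {n : ℕ}
    (hn : ((g j).charpoly.roots.filter fun α => ∃ k : ℤ, Odd k ∧ v α = v c / 2 + k * d).card = n)
    (hpos : 0 < finrank K (W j))
    (hcl : ¬ (4 ∣ finrank K (W j) ∧ 8 ≤ finrank K (W j) ∧ n ≤ finrank K (W j) ∧
      (4 ∣ n ∨ 2 * n = finrank K (W j))))
    {z : Module.End K (W j)} (hz : IsSk (ω j) z) :
    ∃ x ∈ lieGen K (GrpBase.Inv ω G), x j = z := by
  have hctx := D.ctx j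
  set Lj := lieGen K ((Pi.evalAlgHom K (fun j => Module.End K (W j)) j) '' (GrpBase.Inv ω G))
    with hLj
  have hmap : ∀ x, x ∈ Lj ↔ ∃ y ∈ lieGen K (GrpBase.Inv ω G), y j = x := by
    intro x
    rw [hLj, ← lieGen_map]
    rfl
  obtain ⟨h, hh, hgh, hhg⟩ := D.inv g hg
  have hconj : ∀ x ∈ Lj, g j * x * h j ∈ Lj := by
    intro x hx
    obtain ⟨y, hy, rfl⟩ := (hmap x).mp hx
    rw [hmap]
    exact ⟨_, D.lie_conj hg hh hgh hhg hy, rfl⟩
  have hhg' : h j * g j = 1 := congrFun hhg j
  obtain ⟨s, B, lam, hsk, hnorm, hroots, hs⟩ := exists_slope_basis hhg' hc hv hconj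
  have hsL : s ∈ Lj := hctx.irr.mem_of_normalize hctx.nd hsk hnorm
  have hk : ∀ i, ∃ k : ℤ, v (lam i) = v c / 2 + k * d := by
    intro i
    apply hint
    rw [hroots]
    exact Multiset.mem_map_of_mem _ (Finset.mem_univ i)
  choose a ha using hk
  set y : Module.End K (W j) := ((d⁻¹ : ℚ) : K) • s with hy
  have hyL : y ∈ Lj := Lj.smul_mem _ hsL
  have hya : ∀ i, y (B i) = (a i : K) • B i := by
    intro i
    rw [hy, LinearMap.smul_apply, hs, smul_smul]
    congr 1
    rw [ha, ← Rat.cast_mul]
    have : d⁻¹ * (v c / 2 + (a i : ℚ) * d - v c / 2) = (a i : ℚ) := by field_simp; ring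
    rw [this, Rat.cast_intCast]
  have hcard : (Finset.univ.filter (fun i => Odd (a i))).card = n := by
    rw [← hn, hroots, Multiset.filter_map, Multiset.card_map]
    change _ = (Finset.univ.filter _).card
    congr 1
    ext i
    simp only [Finset.mem_filter, Finset.mem_univ, true_and, Function.comp]
    constructor
    · intro h1
      exact ⟨a i, h1, ha i⟩
    · rintro ⟨k, hk1, hk2⟩
      rw [ha i] at hk2
      have h3 : (a i : ℚ) * d = k * d := by linarith
      have h4 : (a i : ℚ) = k := mul_right_cancel₀ hd h3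
      have h5 : a i = k := by exact_mod_cast h4
      rw [h5]; exact hk1
  have hz' := full_of_basis hctx (D.alt j) B a hyL hya hcard hpos hcl hz
  exact (hmap z).mp hz'

end family

end MTP.MF
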