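import Pool.Agent.Helper88.MT.RootPart

/-!
Weights of an irreducible module of a semisimple Lie algebra.
-/

open Module LieModule LieAlgebra LieAlgebra.IsKilling

namespace MTP.MF

section W

variable {K : Type*} [Field K] [CharZero K] [IsAlgClosed K]
  {L : Type*} [LieRing L] [LieAlgebra K L] [FiniteDimensional K L] [IsKilling K L]
  (H : LieSubalgebra K L) [H.IsCartanSubalgebra]
  {V : Type*} [AddCommGroup V] [Module K V] [FiniteDimensional K V]
  [LieRingModule L V] [LieModule K L V]

/-- A basis of simultaneous eigenvectors for a Cartan subalgebra. -/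
structure WB (I : Type*) where
  /-- the basis -/
  v : Basis I K V
  /-- the weights -/
  w : I → Dual K H
  lie_v : ∀ i (h : H), ⁅(h : L), v i⁆ = w i h • v i

variable {H}

lemma lie_root {α : H.root} {x : L} (hx : x ∈ rootSpace H α.1) (h : H) :
    ⁅(h : L), x⁆ = α.1 h • x := by
  have := lie_eq_smul_of_mem_rootSpace hx h
  exact this

omit [IsKilling K L] [FiniteDimensional K L] in
/-- Every element is a sum of elements of root spaces: an induction principle. -/
lemma root_induction {U : Submodule K L} (hU : ∀ α : Weight K H L, ∀ x ∈ rootSpace H α, x ∈ U)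
    [IsTriangularizable K H L] [FiniteDimensional K L]
    (x : L) : x ∈ U := by
  have h1 : (⨆ χ : Weight K H L, genWeightSpace L χ) = ⊤ := iSup_genWeightSpace_eq_top' K H L
  have h2 : (⨆ χ : Weight K H L, (genWeightSpace L χ).toSubmodule) = ⊤ := by
    rw [← LieSubmodule.iSup_toSubmodule, h1, LieSubmodule.top_toSubmodule]
  have h3 : (⨆ χ : Weight K H L, (genWeightSpace L χ).toSubmodule) ≤ U :=
    iSup_le fun χ => fun x hx => hU χ x hx
  rw [h2] at h3
  exact h3 trivial

/-- The weight vectors. -/
def wvec (H : LieSubalgebra K L) (V : Type*) [AddCommGroup V] [Module K V]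
    [LieRingModule L V] : Set V :=
  {u | ∃ χ : Dual K H, ∀ h : H, ⁅(h : L), u⁆ = χ h • u}

theorem exists_WB (hirr : ∀ W : Submodule K V, (∀ x : L, ∀ u ∈ W, ⁅x, u⁆ ∈ W) → W = ⊥ ∨ W = ⊤) :
    ∃ (n : ℕ), Nonempty (WB (V := V) H (Fin n)) := by
  classical
  rcases subsingleton_or_nontrivial V with hV | hV
  · exact ⟨0, ⟨⟨Basis.empty V, fun i => i.elim0, fun i => i.elim0⟩⟩⟩
  have hstab : ∀ x : L, ∀ u ∈ Submodule.span K (wvec H V), ⁅x, u⁆ ∈ Submodule.span K (wvec H V) := by
    intro x u hu
    induction hu using Submodule.span_induction with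
    | zero => simp
    | add a b _ _ ha hb => rw [lie_add]; exact add_mem ha hb
    | smul c a _ ha => rw [lie_smul]; exact Submodule.smul_mem _ _ ha
    | mem u hu =>
      obtain ⟨χ, hχ⟩ := hu
      let U : Submodule K L :=
        { carrier := {x | ⁅x, u⁆ ∈ Submodule.span K (wvec H V)}
          add_mem' := by
            intro a b ha hb
            simp only [Set.mem_ofPred_eq, add_lie] at *
            exact add_mem ha hb
          zero_mem' := by simp
          smul_mem' := by
            intro c a ha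
            simp only [Set.mem_ofPred_eq, smul_lie] at *
            exact Submodule.smul_mem _ _ ha }
      refine root_induction (U := U) (H := H) ?_ x
      intro α z hz
      refine Submodule.subset_span ⟨α.toLinear + χ, fun h => ?_⟩
      have h1 : ⁅(h : L), z⁆ = α h • z := lie_eq_smul_of_mem_rootSpace hz h
      rw [leibniz_lie, h1, hχ, smul_lie, lie_smul, ← add_smul]
      rfl
  have hspan : Submodule.span K (wvec H V) = ⊤ := by
    rcases hirr (Submodule.span K (wvec H V)) hstab with h | h
    · exfalso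
      obtain ⟨χ, hχ⟩ := exists_nontrivial_weightSpace_of_isSolvable K H V
      obtain ⟨⟨u, hu⟩, hu0⟩ := exists_ne (0 : weightSpace V χ)
      rw [mem_weightSpace] at hu
      have h1 : u ∈ Submodule.span K (wvec H V) :=
        Submodule.subset_span ⟨χ, fun h => hu h⟩
      rw [h, Submodule.mem_bot] at h1
      exact hu0 (Subtype.ext h1)
    · exact h
  have hmem := fun i => Basis.ofSpan_subset hspan.ge (Set.mem_range_self i)
  have hfin : Finite ((linearIndepOn_empty K (id : V → V)).extend
      (Set.empty_subset (wvec H V))) :=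
    Module.Finite.finite_basis (Basis.ofSpan hspan.ge)
  let B : WB (V := V) H ((linearIndepOn_empty K (id : V → V)).extend
      (Set.empty_subset (wvec H V))) :=
    { v := Basis.ofSpan hspan.ge
      w := fun i => (hmem i).choose
      lie_v := fun i h => (hmem i).choose_spec h }
  obtain ⟨n, ⟨e⟩⟩ := Finite.exists_equiv_fin ((linearIndepOn_empty K (id : V → V)).extend
      (Set.empty_subset (wvec H V)))
  exact ⟨n, ⟨⟨B.v.reindex e, fun i => B.w (e.symm i), fun i h => by
    rw [Basis.reindex_apply]; exact B.lie_v _ h⟩⟩⟩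

namespace WB

variable {I : Type*} [Fintype I] (B : WB (V := V) H I)

omit [CharZero K] [IsAlgClosed K] [FiniteDimensional K L] [IsKilling K L]
  [H.IsCartanSubalgebra] [FiniteDimensional K V] [LieModule K L V] in
/-- Coordinates of an eigenvector. -/
lemma coord {u : V} {h : H} {c : K} (hu : ⁅(h : L), u⁆ = c • u) {i : I}
    [LieModule K L V]
    (hi : B.v.repr u i ≠ 0) : B.w i h = c := by
  have h1 : ⁅(h : L), u⁆ = ∑ j, (B.v.repr u j * B.w j h) • B.v j := by
    conv_lhs => rw [← B.v.sum_repr u]
    rw [lie_sum]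
    refine Finset.sum_congr rfl fun j _ => ?_
    rw [lie_smul, B.lie_v, smul_smul]
  have h2 : B.v.repr ⁅(h : L), u⁆ i = B.v.repr u i * B.w i h := by
    rw [h1, B.v.repr_sum_self]
  rw [hu, map_smul, Finsupp.smul_apply, smul_eq_mul] at h2
  have h3 : B.v.repr u i * (B.w i h - c) = 0 := by linear_combination -h2
  rcases mul_eq_zero.mp h3 with h | h
  · exact absurd h hi
  · exact sub_eq_zero.mp h

/-- The action of a root vector on a weight vector. -/
lemma lie_root_v {α : H.root} {x : L} (hx : x ∈ rootSpace H α.1) (i : I) (h : H) :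
    ⁅(h : L), ⁅x, B.v i⁆⁆ = (α.1 h + B.w i h) • ⁅x, B.v i⁆ := by
  rw [leibniz_lie, lie_root hx, B.lie_v, smul_lie, lie_smul, ← add_smul]

lemma coord_root {α : H.root} {x : L} (hx : x ∈ rootSpace H α.1) {i j : I}
    (hj : B.v.repr ⁅x, B.v i⁆ j ≠ 0) (h : H) : B.w j h = α.1 h + B.w i h :=
  B.coord (B.lie_root_v hx i h) hj

/-- Values of roots are differences of weights. -/
lemma root_apply (hfaith : ∀ x : L, (∀ u : V, ⁅x, u⁆ = 0) → x = 0) (α : H.root) :
    ∃ i j : I, ∀ h : H, B.w j h = α.1 h + B.w i h := by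
  obtain ⟨x, hx, hx0⟩ := α.1.exists_ne_zero
  have h1 : ∃ i, ⁅x, B.v i⁆ ≠ 0 := by
    by_contra! hcon
    refine hx0 (hfaith x fun u => ?_)
    rw [← B.v.sum_repr u, lie_sum]
    refine Finset.sum_eq_zero fun j _ => ?_
    rw [lie_smul, hcon, smul_zero]
  obtain ⟨i, hi⟩ := h1
  have h2 : ∃ j, B.v.repr ⁅x, B.v i⁆ j ≠ 0 := by
    by_contra! hcon
    apply hi
    apply B.v.repr.injective
    ext j
    rw [hcon j]; simp
  obtain ⟨j, hj⟩ := h2
  exact ⟨i, j, B.coord_root hx hj⟩

/-- The trace form in terms of the weights. -/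
lemma traceForm_apply (x y : H) :
    traceForm K L V (x : L) (y : L) = ∑ i, B.w i x * B.w i y := by
  classical
  rw [traceForm_apply_apply, LinearMap.trace_eq_matrix_trace K B.v, Matrix.trace]
  refine Finset.sum_congr rfl fun i _ => ?_
  rw [Matrix.diag_apply, LinearMap.toMatrix_apply, LinearMap.comp_apply, toEnd_apply_apply,
    toEnd_apply_apply, B.lie_v, lie_smul, B.lie_v, smul_smul, map_smul, B.v.repr_self]
  simp [mul_comm]

end WB

end W

end MTP.MF
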